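import Mathlib

/-!
# Discretely valued fields, lattices in `K^n` given by frames
-/

namespace MP26e62b

/-- `o` is a discrete valuation (on the nonzero elements) of the field `K`, with uniformiser `π`. -/
structure IsDV {K : Type*} [Field K] (o : K → ℤ) (π : K) : Prop where
  mul : ∀ x y, x ≠ 0 → y ≠ 0 → o (x * y) = o x + o y
  add : ∀ x y, x ≠ 0 → y ≠ 0 → x + y ≠ 0 → min (o x) (o y) ≤ o (x + y)
  ne_zero : π ≠ 0
  unif : o π = 1

/-- `x` lies in the `k`-th power of the maximal ideal. -/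
def Ge {K : Type*} [Field K] (o : K → ℤ) (k : ℤ) (x : K) : Prop := x ≠ 0 → k ≤ o x

section basic

variable {K : Type*} [Field K] {o : K → ℤ} {π : K}

theorem IsDV.one (h : IsDV o π) : o 1 = 0 := by
  have := h.mul 1 1 one_ne_zero one_ne_zero
  rw [mul_one] at this
  omega

theorem IsDV.inv (h : IsDV o π) {x : K} (hx : x ≠ 0) : o x⁻¹ = - o x := by
  have := h.mul x x⁻¹ hx (inv_ne_zero hx)
  rw [mul_inv_cancel₀ hx, h.one] at this
  omega

theorem IsDV.pow (h : IsDV o π) {x : K} (hx : x ≠ 0) (n : ℕ) : o (x ^ n) = n * o x := by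
  induction n with
  | zero => simp [h.one]
  | succ n ih =>
    rw [pow_succ, h.mul _ _ (pow_ne_zero _ hx) hx, ih]
    push_cast
    ring

theorem IsDV.zpow (h : IsDV o π) {x : K} (hx : x ≠ 0) (m : ℤ) : o (x ^ m) = m * o x := by
  obtain ⟨n, rfl | rfl⟩ := m.eq_nat_or_neg
  · rw [zpow_natCast, h.pow hx]
  · rw [zpow_neg, zpow_natCast, h.inv (pow_ne_zero _ hx), h.pow hx]
    ring

theorem IsDV.zpow_unif (h : IsDV o π) (m : ℤ) : o (π ^ m) = m := by
  rw [h.zpow h.ne_zero, h.unif, mul_one]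

theorem IsDV.zpow_ne (h : IsDV o π) (m : ℤ) : π ^ m ≠ 0 := zpow_ne_zero _ h.ne_zero

theorem IsDV.neg_one (h : IsDV o π) : o (-1) = 0 := by
  have := h.mul (-1) (-1) (neg_ne_zero.2 one_ne_zero) (neg_ne_zero.2 one_ne_zero)
  rw [neg_one_mul, neg_neg, h.one] at this
  omega

theorem IsDV.neg (h : IsDV o π) {x : K} (hx : x ≠ 0) : o (-x) = o x := by
  rw [neg_eq_neg_one_mul, h.mul _ _ (neg_ne_zero.2 one_ne_zero) hx, h.neg_one, zero_add]

theorem Ge.mono {k l : ℤ} {x : K} (h : Ge o k x) (hl : l ≤ k) : Ge o l x :=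
  fun hx => hl.trans (h hx)

theorem ge_zero (k : ℤ) : Ge o k 0 := fun h => absurd rfl h

theorem IsDV.ge_add (h : IsDV o π) {k : ℤ} {x y : K} (hx : Ge o k x) (hy : Ge o k y) :
    Ge o k (x + y) := by
  intro hxy
  by_cases hx0 : x = 0
  · subst hx0
    rw [zero_add] at hxy ⊢
    exact hy hxy
  by_cases hy0 : y = 0
  · subst hy0
    rw [add_zero] at hxy ⊢
    exact hx hxy
  exact (le_min (hx hx0) (hy hy0)).trans (h.add x y hx0 hy0 hxy)

theorem IsDV.ge_neg (h : IsDV o π) {k : ℤ} {x : K} (hx : Ge o k x) : Ge o k (-x) := by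
  intro hx0
  have : x ≠ 0 := fun h0 => hx0 (by rw [h0, neg_zero])
  rw [h.neg this]
  exact hx this

theorem IsDV.ge_sub (h : IsDV o π) {k : ℤ} {x y : K} (hx : Ge o k x) (hy : Ge o k y) :
    Ge o k (x - y) := by
  rw [sub_eq_add_neg]
  exact h.ge_add hx (h.ge_neg hy)

theorem IsDV.ge_mul (h : IsDV o π) {k l : ℤ} {x y : K} (hx : Ge o k x) (hy : Ge o l y) :
    Ge o (k + l) (x * y) := by
  intro hxy
  have hx0 : x ≠ 0 := left_ne_zero_of_mul hxy
  have hy0 : y ≠ 0 := right_ne_zero_of_mul hxy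
  rw [h.mul x y hx0 hy0]
  exact add_le_add (hx hx0) (hy hy0)

theorem IsDV.ge_sum (h : IsDV o π) {ι : Type*} (s : Finset ι) {k : ℤ} {f : ι → K}
    (hf : ∀ i ∈ s, Ge o k (f i)) : Ge o k (∑ i ∈ s, f i) := by
  classical
  induction s using Finset.induction_on with
  | empty => simpa using ge_zero k
  | insert a s ha ih =>
    rw [Finset.sum_insert ha]
    exact h.ge_add (hf a (Finset.mem_insert_self a s))
      (ih fun i hi => hf i (Finset.mem_insert_of_mem hi))

theorem IsDV.ge_prod (h : IsDV o π) {ι : Type*} (s : Finset ι) {k : ι → ℤ} {f : ι → K}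
    (hf : ∀ i ∈ s, Ge o (k i) (f i)) : Ge o (∑ i ∈ s, k i) (∏ i ∈ s, f i) := by
  classical
  induction s using Finset.induction_on with
  | empty => intro _; simp [h.one]
  | insert a s ha ih =>
    rw [Finset.sum_insert ha, Finset.prod_insert ha]
    exact h.ge_mul (hf a (Finset.mem_insert_self a s))
      (ih fun i hi => hf i (Finset.mem_insert_of_mem hi))

theorem IsDV.ge_zpow_mul (h : IsDV o π) {k m : ℤ} {x : K} :
    Ge o k (π ^ m * x) ↔ Ge o (k - m) x := by
  constructor
  · intro H hx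
    have := H (mul_ne_zero (h.zpow_ne m) hx)
    rw [h.mul _ _ (h.zpow_ne m) hx, h.zpow_unif] at this
    omega
  · intro H hx
    have hx0 : x ≠ 0 := right_ne_zero_of_mul hx
    rw [h.mul _ _ (h.zpow_ne m) hx0, h.zpow_unif]
    have := H hx0
    omega

theorem IsDV.ge_zpow (h : IsDV o π) {k m : ℤ} : Ge o k (π ^ m) ↔ k ≤ m := by
  constructor
  · intro H
    have := H (h.zpow_ne m)
    rwa [h.zpow_unif] at this
  · intro H _
    rwa [h.zpow_unif]

end basic

section lattices

variable {K : Type*} [Field K] {n : ℕ}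

/-- A frame of `K^n`: a linear automorphism (its columns form a basis). -/
abbrev Frame (K : Type*) [Field K] (n : ℕ) : Type _ := (Fin n → K) ≃ₗ[K] (Fin n → K)

/-- The lattice `⊕ 𝔭^{a_i} g(e_i)`. -/
def latt (o : K → ℤ) (g : Frame K n) (a : Fin n → ℤ) : Set (Fin n → K) :=
  {x | ∀ i, Ge o (a i) (g.symm x i)}

/-- Homothety: `π^m L`. -/
def shift (π : K) (m : ℤ) (L : Set (Fin n → K)) : Set (Fin n → K) := {x | π ^ (-m) • x ∈ L}

variable {o : K → ℤ} {π : K}

theorem mem_latt {g : Frame K n} {a : Fin n → ℤ} {x : Fin n → K} :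
    x ∈ latt o g a ↔ ∀ i, Ge o (a i) (g.symm x i) := Iff.rfl

theorem mem_shift {m : ℤ} {L : Set (Fin n → K)} {x : Fin n → K} :
    x ∈ shift π m L ↔ π ^ (-m) • x ∈ L := Iff.rfl

theorem shift_shift (h : IsDV o π) (m k : ℤ) (L : Set (Fin n → K)) :
    shift π m (shift π k L) = shift π (m + k) L := by
  ext x
  rw [mem_shift, mem_shift, mem_shift, smul_smul, ← zpow_add₀ h.ne_zero, neg_add, add_comm (-k)]

theorem shift_zero (L : Set (Fin n → K)) : shift π 0 L = L := by
  ext x
  rw [mem_shift, neg_zero, zpow_zero, one_smul]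

theorem shift_mono {m : ℤ} {L L' : Set (Fin n → K)} (hL : L ⊆ L') :
    shift π m L ⊆ shift π m L' := fun _ hx => hL hx

theorem shift_latt (h : IsDV o π) (g : Frame K n) (a : Fin n → ℤ) (m : ℤ) :
    shift π m (latt o g a) = latt o g (fun i => a i + m) := by
  ext x
  rw [mem_shift, mem_latt, mem_latt]
  refine forall_congr' fun i => ?_
  rw [map_smul, Pi.smul_apply, smul_eq_mul, h.ge_zpow_mul, sub_neg_eq_add]

/-- The diagonal frame with entries `π^{a_i}`. -/
def diag (h : IsDV o π) (a : Fin n → ℤ) : Frame K n :=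
  LinearEquiv.piCongrRight fun i =>
    LinearEquiv.smulOfUnit (Units.mk0 (π ^ (a i)) (h.zpow_ne (a i)))

theorem diag_apply (h : IsDV o π) (a : Fin n → ℤ) (x : Fin n → K) (i : Fin n) :
    diag h a x i = π ^ (a i) * x i := rfl

theorem diag_symm_apply (h : IsDV o π) (a : Fin n → ℤ) (x : Fin n → K) (i : Fin n) :
    (diag h a).symm x i = π ^ (- a i) * x i := by
  have h1 : diag h a (fun j => π ^ (- a j) * x j) = x := by
    ext j
    rw [diag_apply, ← mul_assoc, ← zpow_add₀ h.ne_zero, add_neg_cancel, zpow_zero, one_mul]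
  conv_lhs => rw [← h1]
  rw [LinearEquiv.symm_apply_apply]

theorem latt_eq (h : IsDV o π) (g : Frame K n) (a : Fin n → ℤ) :
    latt o g a = latt o (g * diag h a) 0 := by
  ext x
  rw [mem_latt, mem_latt]
  refine forall_congr' fun i => ?_
  change _ ↔ Ge o 0 ((diag h a).symm (g.symm x) i)
  rw [diag_symm_apply, h.ge_zpow_mul, zero_sub, neg_neg]

/-- Image of a lattice under a linear automorphism. -/
theorem image_latt (g g' : Frame K n) (a : Fin n → ℤ) :
    g' '' latt o g a = latt o (g' * g) a := by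
  ext x
  constructor
  · rintro ⟨y, hy, rfl⟩ i
    change Ge o (a i) (g.symm (g'.symm (g' y)) i)
    rw [LinearEquiv.symm_apply_apply]
    exact hy i
  · intro hx
    exact ⟨g'.symm x, fun i => hx i, LinearEquiv.apply_symm_apply g' x⟩

theorem latt_subset_iff (h : IsDV o π) (g : Frame K n) (a b : Fin n → ℤ) :
    latt o g a ⊆ latt o g b ↔ b ≤ a := by
  classical
  constructor
  · intro H i
    have h1 : g (Pi.single i (π ^ (a i))) ∈ latt o g a := by
      intro j
      rw [LinearEquiv.symm_apply_apply]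
      by_cases hj : j = i
      · subst hj
        rw [Pi.single_eq_same]
        exact h.ge_zpow.2 le_rfl
      · rw [Pi.single_eq_of_ne hj]
        exact ge_zero _
    have h2 := H h1 i
    rw [LinearEquiv.symm_apply_apply, Pi.single_eq_same] at h2
    exact h.ge_zpow.1 h2
  · intro H x hx i
    exact (hx i).mono (H i)

theorem latt_injective (h : IsDV o π) (g : Frame K n) {a b : Fin n → ℤ}
    (H : latt o g a = latt o g b) : a = b :=
  le_antisymm ((latt_subset_iff h g b a).1 H.ge) ((latt_subset_iff h g a b).1 H.le)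

end lattices

end MP26e62b
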