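import Pool.Agent.Lib.MP_26e62b_al.T1

/-!
# T2 : two chains of lattices have a common frame
-/

namespace MP26e62b

section t2

variable {K : Type*} [Field K] {o : K → ℤ} {π : K} {n : ℕ}

/-- The order of a vector with respect to a lattice. -/
noncomputable def t2_ord (π : K) (L : Set (Fin n → K)) (x : Fin n → K) : ℤ :=
  open Classical in if h : ∃ k : ℤ, ∀ l : ℤ, l ≤ k ↔ x ∈ shift π l L then h.choose else 0

theorem t2_mem_shift (h : IsDV o π) (g : Frame K n) (l : ℤ) (x : Fin n → K) :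
    x ∈ shift π l (latt o g 0) ↔ ∀ i, Ge o l (g.symm x i) := by
  rw [shift_latt h, mem_latt]
  simp

theorem t2_exists (h : IsDV o π) (g : Frame K n) (x : Fin n → K) (hx : x ≠ 0) :
    ∃ k : ℤ, ∀ l : ℤ, l ≤ k ↔ x ∈ shift π l (latt o g 0) := by
  classical
  have hy : g.symm x ≠ 0 := by
    intro h0
    exact hx (by simpa using congrArg g h0)
  obtain ⟨i0, hi0⟩ := Function.ne_iff.1 hy
  have hne : (Finset.univ.filter fun i => g.symm x i ≠ 0).Nonempty :=
    ⟨i0, by simpa using hi0⟩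
  refine ⟨(Finset.univ.filter fun i => g.symm x i ≠ 0).inf' hne (fun i => o (g.symm x i)), ?_⟩
  intro l
  rw [t2_mem_shift h, Finset.le_inf'_iff]
  constructor
  · intro H i hi
    exact H i (by simpa using hi)
  · intro H i hi
    exact H i (by simpa using hi)

theorem t2_ord_spec (h : IsDV o π) {L : Set (Fin n → K)} (hL : ∃ g : Frame K n, L = latt o g 0)
    {x : Fin n → K} (hx : x ≠ 0) (l : ℤ) : l ≤ t2_ord π L x ↔ x ∈ shift π l L := by
  classical
  obtain ⟨g, rfl⟩ := hL
  have hex := t2_exists h g x hx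
  unfold t2_ord
  rw [dif_pos hex]
  exact hex.choose_spec l

theorem t2_ge_smul (h : IsDV o π) {c y : K} (hc : c ≠ 0) (l : ℤ) :
    Ge o (l + o c) (c * y) ↔ Ge o l y := by
  constructor
  · intro H hy
    have := H (mul_ne_zero hc hy)
    rw [h.mul _ _ hc hy] at this
    omega
  · intro H hcy
    have hy : y ≠ 0 := right_ne_zero_of_mul hcy
    rw [h.mul _ _ hc hy]
    have := H hy
    omega

theorem t2_ord_smul (h : IsDV o π) {L : Set (Fin n → K)} (hL : ∃ g : Frame K n, L = latt o g 0)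
    {c : K} {x : Fin n → K} (hc : c ≠ 0) (hx : x ≠ 0) :
    t2_ord π L (c • x) = o c + t2_ord π L x := by
  have key : ∀ l : ℤ, l + o c ≤ t2_ord π L (c • x) ↔ l ≤ t2_ord π L x := by
    intro l
    rw [t2_ord_spec h hL (smul_ne_zero hc hx), t2_ord_spec h hL hx]
    obtain ⟨g, rfl⟩ := hL
    rw [t2_mem_shift h, t2_mem_shift h]
    refine forall_congr' fun i => ?_
    rw [map_smul, Pi.smul_apply, smul_eq_mul, t2_ge_smul h hc]
  have h1 := (key (t2_ord π L x)).2 le_rfl
  have h2 := (key (t2_ord π L (c • x) - o c)).1 (by omega)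
  omega

theorem t2_ord_add (h : IsDV o π) {L : Set (Fin n → K)} (hL : ∃ g : Frame K n, L = latt o g 0)
    {x y : Fin n → K} (hx : x ≠ 0) (hy : y ≠ 0) (hxy : x + y ≠ 0) :
    min (t2_ord π L x) (t2_ord π L y) ≤ t2_ord π L (x + y) := by
  have h1 := (t2_ord_spec h hL hx (min (t2_ord π L x) (t2_ord π L y))).1 (min_le_left _ _)
  have h2 := (t2_ord_spec h hL hy (min (t2_ord π L x) (t2_ord π L y))).1 (min_le_right _ _)
  rw [t2_ord_spec h hL hxy]
  obtain ⟨g, rfl⟩ := hL
  rw [t2_mem_shift h] at h1 h2 ⊢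
  intro i
  rw [map_add, Pi.add_apply]
  exact h.ge_add (h1 i) (h2 i)

theorem t2_ord_norm (h : IsDV o π) {L : Set (Fin n → K)} (hL : ∃ g : Frame K n, L = latt o g 0) :
    IsNorm o 1 (t2_ord π L) :=
  ⟨fun c x hc hx => by rw [t2_ord_smul h hL hc hx, one_mul],
    fun _ _ hx hy hxy => t2_ord_add h hL hx hy hxy⟩

theorem t2_frame_ne (g : Frame K n) (i : Fin n) : g (Pi.single i (1 : K)) ≠ 0 := by
  intro h0
  have h1 : (Pi.single i (1 : K) : Fin n → K) = 0 := by simpa using congrArg g.symm h0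
  have := congrFun h1 i
  rw [Pi.single_eq_same] at this
  exact one_ne_zero this

theorem t2_ord_frame (h : IsDV o π) (g : Frame K n) (i : Fin n) :
    t2_ord π (latt o g 0) (g (Pi.single i (1 : K))) = 0 := by
  classical
  have hL : ∃ g' : Frame K n, latt o g 0 = latt o g' 0 := ⟨g, rfl⟩
  have key : ∀ l : ℤ, l ≤ t2_ord π (latt o g 0) (g (Pi.single i (1 : K))) ↔ l ≤ 0 := by
    intro l
    rw [t2_ord_spec h hL (t2_frame_ne g i), t2_mem_shift h]
    constructor
    · intro H
      have h1 := H i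
      rw [LinearEquiv.symm_apply_apply, Pi.single_eq_same] at h1
      have := h1 one_ne_zero
      rwa [h.one] at this
    · intro H j
      rw [LinearEquiv.symm_apply_apply]
      by_cases hj : j = i
      · subst hj
        rw [Pi.single_eq_same]
        intro _
        rw [h.one]
        exact H
      · rw [Pi.single_eq_of_ne hj]
        exact ge_zero _
  exact le_antisymm ((key _).1 le_rfl) ((key 0).2 le_rfl)

theorem t2_ord_splits (h : IsDV o π) (g : Frame K n) {c : ℤ} (hc : 0 < c) :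
    Splits o c (fun x => c * t2_ord π (latt o g 0) x) g := by
  intro x hx k
  have hL : ∃ g' : Frame K n, latt o g 0 = latt o g' 0 := ⟨g, rfl⟩
  simp only [t2_ord_frame h, mul_zero, add_zero]
  constructor
  · intro H i hi
    have h1 := (t2_ord_spec h hL hx _).1 le_rfl
    rw [t2_mem_shift h] at h1
    exact H.trans (mul_le_mul_of_nonneg_left (h1 i hi) hc.le)
  · intro H
    -- the minimum is attained
    by_contra hlt
    push Not at hlt
    have h2 : t2_ord π (latt o g 0) x + 1 ≤ t2_ord π (latt o g 0) x := by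
      rw [t2_ord_spec h hL hx, t2_mem_shift h]
      intro i hi
      have h3 := H i hi
      have h4 : c * t2_ord π (latt o g 0) x < c * o (g.symm x i) := lt_of_lt_of_le hlt h3
      have h5 := lt_of_mul_lt_mul_left h4 hc.le
      omega
    omega

theorem t2_decomp (g : Frame K n) (x : Fin n → K) :
    x = ∑ j, g.symm x j • g (Pi.single j (1 : K)) := by
  classical
  have h1 : g.symm x = ∑ j, g.symm x j • (Pi.single j (1 : K) : Fin n → K) := by
    ext i
    rw [Finset.sum_apply]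
    simp only [Pi.smul_apply, smul_eq_mul]
    rw [Finset.sum_eq_single i]
    · rw [Pi.single_eq_same, mul_one]
    · intro j _ hj
      rw [Pi.single_eq_of_ne (Ne.symm hj), mul_zero]
    · intro hi
      exact absurd (Finset.mem_univ i) hi
  have h2 : g (g.symm x) = ∑ j, g.symm x j • g (Pi.single j (1 : K)) := by
    conv_lhs => rw [h1]
    rw [map_sum]
    exact Finset.sum_congr rfl fun j _ => map_smul _ _ _
  rw [LinearEquiv.apply_symm_apply] at h2
  exact h2

theorem t2_bound (h : IsDV o π) {L L' : Set (Fin n → K)} (hL : ∃ g : Frame K n, L = latt o g 0)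
    (hL' : ∃ g : Frame K n, L' = latt o g 0) :
    ∃ δ : ℤ, ∀ x, x ≠ 0 → t2_ord π L' x ≤ t2_ord π L x + δ := by
  classical
  obtain ⟨g', hg'⟩ := hL'
  obtain ⟨g, hg⟩ := hL
  set A : Fin n → Fin n → K := fun i j => g.symm (g' (Pi.single j (1 : K))) i with hA
  refine ⟨∑ i, ∑ j, |o (A i j)|, ?_⟩
  intro x hx
  have hδ : ∀ i j, Ge o (-∑ i, ∑ j, |o (A i j)|) (A i j) := by
    intro i j _
    have h1 : |o (A i j)| ≤ ∑ j, |o (A i j)| :=
      Finset.single_le_sum (f := fun j => |o (A i j)|) (fun _ _ => abs_nonneg _)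
        (Finset.mem_univ j)
    have h2 : ∑ j, |o (A i j)| ≤ ∑ i, ∑ j, |o (A i j)| :=
      Finset.single_le_sum (f := fun i => ∑ j, |o (A i j)|)
        (fun _ _ => Finset.sum_nonneg fun _ _ => abs_nonneg _) (Finset.mem_univ i)
    have h3 := neg_abs_le (o (A i j))
    omega
  have h1 := (t2_ord_spec h ⟨g', hg'⟩ hx (t2_ord π L' x)).1 le_rfl
  rw [hg', t2_mem_shift h, ← hg'] at h1
  have h2 : t2_ord π L' x + (-∑ i, ∑ j, |o (A i j)|) ≤ t2_ord π L x := by
    rw [t2_ord_spec h ⟨g, hg⟩ hx]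
    rw [hg, t2_mem_shift h]
    intro i
    have h3 : g.symm x i = ∑ j, g'.symm x j * A i j := by
      conv_lhs => rw [t2_decomp g' x]
      rw [map_sum, Finset.sum_apply]
      refine Finset.sum_congr rfl fun j _ => ?_
      rw [map_smul, Pi.smul_apply, smul_eq_mul]
    rw [h3]
    exact h.ge_sum _ fun j _ => h.ge_mul (h1 j) (hδ i j)
  omega

/-- The properties of a chain of lattices. -/
theorem t2_shift_mono (L : Set (Fin n → K)) (h : IsDV o π) (hs : shift π 1 L ⊆ L) (m : ℤ) (d : ℕ) :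
    shift π (m + d) L ⊆ shift π m L := by
  induction d with
  | zero => simp
  | succ d ih =>
    refine subset_trans ?_ ih
    have h1 : shift π (m + d) (shift π 1 L) = shift π (m + (d + 1 : ℕ)) L := by
      rw [shift_shift h]
      congr 1
      push_cast
      ring
    rw [← h1]
    exact shift_mono hs

theorem t2_comparable (h : IsDV o π) {ι : Type*} (L : ι → Set (Fin n → K))
    (hc : ∀ i j, L i ⊆ L j ∨ L j ⊆ L i) (hs : ∀ i j, shift π 1 (L i) ⊆ L j) (i j : ι) (k l : ℤ) :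
    shift π k (L i) ⊆ shift π l (L j) ∨ shift π l (L j) ⊆ shift π k (L i) := by
  have key : ∀ i j (k l : ℤ), l < k → shift π k (L i) ⊆ shift π l (L j) := by
    intro i j k l hlk
    obtain ⟨d, hd⟩ := Int.eq_ofNat_of_zero_le (by omega : 0 ≤ k - (l + 1))
    have h1 := t2_shift_mono (L i) h (hs i i) (l + 1) d
    have h2 : l + 1 + (d : ℤ) = k := by omega
    rw [h2] at h1
    refine h1.trans ?_
    rw [← shift_shift h]
    exact shift_mono (hs i j)
  rcases lt_trichotomy k l with hkl | hkl | hkl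
  · exact Or.inr (key j i l k hkl)
  · subst hkl
    rcases hc i j with h1 | h1
    · exact Or.inl (shift_mono h1)
    · exact Or.inr (shift_mono h1)
  · exact Or.inl (key i j k l hkl)

theorem t2_ord_compare (h : IsDV o π) {ι : Type*} (L : ι → Set (Fin n → K))
    (hL : ∀ i, ∃ g : Frame K n, L i = latt o g 0)
    (hc : ∀ i j, L i ⊆ L j ∨ L j ⊆ L i) (hs : ∀ i j, shift π 1 (L i) ⊆ L j)
    {x y : Fin n → K} (hx : x ≠ 0) (hy : y ≠ 0) :
    (∀ i, t2_ord π (L i) x ≤ t2_ord π (L i) y) ∨ (∀ i, t2_ord π (L i) y ≤ t2_ord π (L i) x) := by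
  by_contra hcon
  push Not at hcon
  obtain ⟨⟨i, hi⟩, ⟨j, hj⟩⟩ := hcon
  -- `ord_i y < ord_i x`, `ord_j x < ord_j y`
  have a1 : x ∈ shift π (t2_ord π (L i) x) (L i) := (t2_ord_spec h (hL i) hx _).1 le_rfl
  have a2 : y ∉ shift π (t2_ord π (L i) x) (L i) := by
    rw [← t2_ord_spec h (hL i) hy]
    omega
  have b1 : y ∈ shift π (t2_ord π (L j) y) (L j) := (t2_ord_spec h (hL j) hy _).1 le_rfl
  have b2 : x ∉ shift π (t2_ord π (L j) y) (L j) := by
    rw [← t2_ord_spec h (hL j) hx]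
    omega
  rcases t2_comparable h L hc hs i j (t2_ord π (L i) x) (t2_ord π (L j) y) with h1 | h1
  · exact b2 (h1 a1)
  · exact a2 (h1 b1)

/-- The norm of a chain. -/
noncomputable def t2_sum (π : K) {ι : Type*} [Fintype ι] (L : ι → Set (Fin n → K))
    (x : Fin n → K) : ℤ := ∑ i, t2_ord π (L i) x

theorem t2_sum_norm (h : IsDV o π) {ι : Type*} [Fintype ι] (L : ι → Set (Fin n → K))
    (hL : ∀ i, ∃ g : Frame K n, L i = latt o g 0)
    (hc : ∀ i j, L i ⊆ L j ∨ L j ⊆ L i) (hs : ∀ i j, shift π 1 (L i) ⊆ L j) {c : ℤ} (hc0 : 0 < c) :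
    IsNorm o (c * Fintype.card ι) (fun x => c * t2_sum π L x) := by
  refine ⟨?_, ?_⟩
  · intro a x ha hx
    have h1 : t2_sum π L (a • x) = Fintype.card ι * o a + t2_sum π L x := by
      unfold t2_sum
      rw [Finset.sum_congr rfl fun i _ => t2_ord_smul h (hL i) ha hx, Finset.sum_add_distrib,
        Finset.sum_const, Finset.card_univ, nsmul_eq_mul]
    simp only [h1]
    ring
  · intro x y hx hy hxy
    rcases t2_ord_compare h L hL hc hs hx hy with h1 | h1
    · refine le_trans (min_le_left _ _) (mul_le_mul_of_nonneg_left ?_ hc0.le)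
      refine Finset.sum_le_sum fun i _ => ?_
      have h2 := t2_ord_add h (hL i) hx hy hxy
      rwa [min_eq_left (h1 i)] at h2
    · refine le_trans (min_le_right _ _) (mul_le_mul_of_nonneg_left ?_ hc0.le)
      refine Finset.sum_le_sum fun i _ => ?_
      have h2 := t2_ord_add h (hL i) hx hy hxy
      rwa [min_eq_right (h1 i)] at h2

theorem t2_sum_le (h : IsDV o π) {ι : Type*} [Fintype ι] (L : ι → Set (Fin n → K))
    (hL : ∀ i, ∃ g : Frame K n, L i = latt o g 0)
    (hc : ∀ i j, L i ⊆ L j ∨ L j ⊆ L i) (hs : ∀ i j, shift π 1 (L i) ⊆ L j)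
    {x y : Fin n → K} (hx : x ≠ 0) (hy : y ≠ 0) (hxy : t2_sum π L x ≤ t2_sum π L y) (i : ι) :
    t2_ord π (L i) x ≤ t2_ord π (L i) y := by
  rcases t2_ord_compare h L hL hc hs hx hy with h1 | h1
  · exact h1 i
  · by_contra hlt
    push Not at hlt
    have h2 : t2_sum π L y < t2_sum π L x :=
      Finset.sum_lt_sum (fun j _ => h1 j) ⟨i, Finset.mem_univ i, hlt⟩
    omega

theorem t2_frame_of_splits (h : IsDV o π) {ι : Type*} [Fintype ι] (L : ι → Set (Fin n → K))
    (hL : ∀ i, ∃ g : Frame K n, L i = latt o g 0)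
    (hc : ∀ i j, L i ⊆ L j ∨ L j ⊆ L i) (hs : ∀ i j, shift π 1 (L i) ⊆ L j) {c : ℤ} (hc0 : 0 < c)
    {g : Frame K n} (hg : Splits o (c * Fintype.card ι) (fun x => c * t2_sum π L x) g) (i : ι) :
    ∃ a, L i = latt o g a := by
  classical
  have hN := t2_sum_norm h L hL hc hs hc0
  refine ⟨fun j => - t2_ord π (L i) (g (Pi.single j 1)), ?_⟩
  ext x
  rw [mem_latt]
  have hmem0 : ∀ y : Fin n → K, y ≠ 0 → (y ∈ L i ↔ 0 ≤ t2_ord π (L i) y) := by
    intro y hy
    rw [t2_ord_spec h (hL i) hy, shift_zero]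
  constructor
  · intro hx j hj
    have hx0 : x ≠ 0 := by
      intro h0
      rw [h0, map_zero] at hj
      exact hj rfl
    have hv0 : g.symm x j • g (Pi.single j (1 : K)) ≠ 0 := smul_ne_zero hj (t2_frame_ne g j)
    have h1 := (hg x hx0 (c * t2_sum π L x)).1 le_rfl j hj
    have h2 := hN.smul (g.symm x j) (g (Pi.single j (1 : K))) hj (t2_frame_ne g j)
    simp only at h1 h2
    rw [← h2] at h1
    have h3 : t2_sum π L x ≤ t2_sum π L (g.symm x j • g (Pi.single j (1 : K))) :=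
      le_of_mul_le_mul_left h1 hc0
    have h4 := t2_sum_le h L hL hc hs hx0 hv0 h3 i
    rw [t2_ord_smul h (hL i) hj (t2_frame_ne g j)] at h4
    have h5 := (hmem0 x hx0).1 hx
    omega
  · intro hx
    obtain ⟨g0, hg0⟩ := hL i
    rw [t2_decomp g x, hg0, mem_latt]
    intro k
    rw [map_sum, Finset.sum_apply]
    refine h.ge_sum _ fun j _ => ?_
    by_cases hj : g.symm x j = 0
    · rw [hj, zero_smul, map_zero]
      exact ge_zero _
    · have hv0 : g.symm x j • g (Pi.single j (1 : K)) ≠ 0 := smul_ne_zero hj (t2_frame_ne g j)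
      have h1 := hx j hj
      have h2 : g.symm x j • g (Pi.single j (1 : K)) ∈ L i := by
        rw [hmem0 _ hv0, t2_ord_smul h (hL i) hj (t2_frame_ne g j)]
        omega
      rw [hg0, mem_latt] at h2
      exact h2 k

end t2

theorem T2_common_frame {K : Type*} [Field K] {o : K → ℤ} {π : K} (h : IsDV o π) {n : ℕ}
    {ι κ : Type*} [Fintype ι] [Fintype κ] [Nonempty ι] [Nonempty κ]
    (L : ι → Set (Fin n → K)) (L' : κ → Set (Fin n → K))
    (hL : ∀ i, ∃ g : Frame K n, L i = latt o g 0) (hL' : ∀ i, ∃ g : Frame K n, L' i = latt o g 0)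
    (hc : ∀ i j, L i ⊆ L j ∨ L j ⊆ L i) (hc' : ∀ i j, L' i ⊆ L' j ∨ L' j ⊆ L' i)
    (hs : ∀ i j, shift π 1 (L i) ⊆ L j) (hs' : ∀ i j, shift π 1 (L' i) ⊆ L' j) :
    ∃ g : Frame K n, (∀ i, ∃ a, L i = latt o g a) ∧ (∀ i, ∃ a, L' i = latt o g a) := by
  classical
  obtain ⟨i0⟩ := ‹Nonempty ι›
  obtain ⟨j0⟩ := ‹Nonempty κ›
  have hm : (0 : ℤ) < Fintype.card ι := by
    have : 0 < Fintype.card ι := Fintype.card_pos_iff.2 ⟨i0⟩
    exact_mod_cast this
  have hm' : (0 : ℤ) < Fintype.card κ := by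
    have : 0 < Fintype.card κ := Fintype.card_pos_iff.2 ⟨j0⟩
    exact_mod_cast this
  have hN := t2_sum_norm h L hL hc hs one_pos
  rw [one_mul] at hN
  simp only [one_mul] at hN
  -- step 1
  obtain ⟨g0, hg0⟩ := hL i0
  have hN0 : IsNorm o (Fintype.card ι : ℤ) (fun x => (Fintype.card ι : ℤ) * t2_ord π (L i0) x) := by
    refine ⟨?_, ?_⟩
    · intro c x hc0 hx
      rw [t2_ord_smul h (hL i0) hc0 hx]
      ring
    · intro x y hx hy hxy
      have h1 := t2_ord_add h (hL i0) hx hy hxy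
      rw [← mul_min_of_nonneg _ _ hm.le]
      exact mul_le_mul_of_nonneg_left h1 hm.le
  have hS0 : Splits o (Fintype.card ι : ℤ) (fun x => (Fintype.card ι : ℤ) * t2_ord π (L i0) x) g0 := by
    rw [hg0]
    exact t2_ord_splits h g0 hm
  have hb0 : ∃ δ : ℤ, ∀ x, x ≠ 0 → t2_sum π L x ≤ (Fintype.card ι : ℤ) * t2_ord π (L i0) x + δ := by
    choose δ hδ using fun i => t2_bound h (hL i0) (hL i)
    refine ⟨∑ i, δ i, ?_⟩
    intro x hx
    calc t2_sum π L x ≤ ∑ i, (t2_ord π (L i0) x + δ i) :=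
          Finset.sum_le_sum fun i _ => hδ i x hx
      _ = (Fintype.card ι : ℤ) * t2_ord π (L i0) x + ∑ i, δ i := by
          rw [Finset.sum_add_distrib, Finset.sum_const, Finset.card_univ, nsmul_eq_mul]
  obtain ⟨g1, _, hS1⟩ := T1_split_two h hN0 hN hS0 hb0
  -- step 2
  have hS1' : Splits o ((Fintype.card κ : ℤ) * Fintype.card ι)
      (fun x => (Fintype.card κ : ℤ) * t2_sum π L x) g1 := by
    intro x hx k
    simp only
    constructor
    · intro H i hi
      have h1 := (hS1 x hx _).1 le_rfl i hi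
      calc k ≤ (Fintype.card κ : ℤ) * t2_sum π L x := H
        _ ≤ (Fintype.card κ : ℤ) * ((Fintype.card ι : ℤ) * o (g1.symm x i) +
            t2_sum π L (g1 (Pi.single i 1))) := mul_le_mul_of_nonneg_left h1 hm'.le
        _ = _ := by ring
    · intro H
      by_contra hlt
      push Not at hlt
      have h2 : t2_sum π L x + 1 ≤ t2_sum π L x := by
        rw [hS1 x hx]
        intro i hi
        have h3 := H i hi
        have h4 : (Fintype.card κ : ℤ) * t2_sum π L x < (Fintype.card κ : ℤ) *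
            ((Fintype.card ι : ℤ) * o (g1.symm x i) + t2_sum π L (g1 (Pi.single i 1))) := by
          refine lt_of_lt_of_le hlt (h3.trans (le_of_eq ?_))
          ring
        have h5 := lt_of_mul_lt_mul_left h4 hm'.le
        exact Int.add_one_le_iff.2 h5
      omega
  have hN1 := t2_sum_norm h L hL hc hs hm'
  have hN2 := t2_sum_norm h L' hL' hc' hs' hm
  rw [mul_comm (Fintype.card ι : ℤ) (Fintype.card κ : ℤ)] at hN2
  have hb1 : ∃ δ : ℤ, ∀ x, x ≠ 0 → (Fintype.card ι : ℤ) * t2_sum π L' x ≤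
      (Fintype.card κ : ℤ) * t2_sum π L x + δ := by
    choose δ hδ using fun j => t2_bound h (hL i0) (hL' j)
    choose ε hε using fun i => t2_bound h (hL i) (hL i0)
    refine ⟨(Fintype.card ι : ℤ) * ∑ j, δ j + (Fintype.card κ : ℤ) * ∑ i, ε i, ?_⟩
    intro x hx
    have h1 : t2_sum π L' x ≤ (Fintype.card κ : ℤ) * t2_ord π (L i0) x + ∑ j, δ j := by
      calc t2_sum π L' x ≤ ∑ j, (t2_ord π (L i0) x + δ j) :=
            Finset.sum_le_sum fun j _ => hδ j x hx
        _ = _ := by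
            rw [Finset.sum_add_distrib, Finset.sum_const, Finset.card_univ, nsmul_eq_mul]
    have h2 : (Fintype.card ι : ℤ) * t2_ord π (L i0) x ≤ t2_sum π L x + ∑ i, ε i := by
      calc (Fintype.card ι : ℤ) * t2_ord π (L i0) x = ∑ _i : ι, t2_ord π (L i0) x := by
            rw [Finset.sum_const, Finset.card_univ, nsmul_eq_mul]
        _ ≤ ∑ i, (t2_ord π (L i) x + ε i) := Finset.sum_le_sum fun i _ => hε i x hx
        _ = _ := by rw [Finset.sum_add_distrib]; rfl
    have h3 := mul_le_mul_of_nonneg_left h1 hm.le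
    have h4 := mul_le_mul_of_nonneg_left h2 hm'.le
    calc (Fintype.card ι : ℤ) * t2_sum π L' x
        ≤ (Fintype.card ι : ℤ) * ((Fintype.card κ : ℤ) * t2_ord π (L i0) x + ∑ j, δ j) := h3
      _ = (Fintype.card κ : ℤ) * ((Fintype.card ι : ℤ) * t2_ord π (L i0) x) +
          (Fintype.card ι : ℤ) * ∑ j, δ j := by ring
      _ ≤ (Fintype.card κ : ℤ) * (t2_sum π L x + ∑ i, ε i) +
          (Fintype.card ι : ℤ) * ∑ j, δ j := by linarith
      _ = _ := by ring
  obtain ⟨g, hSa, hSb⟩ := T1_split_two h hN1 hN2 hS1' hb1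
  rw [mul_comm (Fintype.card κ : ℤ) (Fintype.card ι : ℤ)] at hSb
  exact ⟨g, fun i => t2_frame_of_splits h L hL hc hs hm' hSa i,
    fun j => t2_frame_of_splits h L' hL' hc' hs' hm hSb j⟩

end MP26e62b
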