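import Pool.Agent.Lib.MP_26e62b_al.DV

/-!
# T3 : the intersection of two apartments
-/

namespace MP26e62b

section T3

variable {K : Type*} [Field K] {o : K → ℤ} {π : K} {n : ℕ}

/-- the matrix of `g⁻¹ g'` -/
def trans (g g' : Frame K n) : Matrix (Fin n) (Fin n) K :=
  LinearMap.toMatrix' ((g.symm : (Fin n → K) →ₗ[K] (Fin n → K)) ∘ₗ
    (g' : (Fin n → K) →ₗ[K] (Fin n → K)))

theorem trans_apply (g g' : Frame K n) (i j : Fin n) (c : K) :
    g.symm (g' (Pi.single j c)) i = c * trans g g' i j := by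
  classical
  have h1 : (Pi.single j c : Fin n → K) = c • Pi.single j 1 := by
    rw [← Pi.single_smul, smul_eq_mul, mul_one]
  rw [h1, map_smul, map_smul, Pi.smul_apply, smul_eq_mul, trans, LinearMap.toMatrix'_apply]
  congr 3

theorem trans_mul (g g' : Frame K n) : trans g g' * trans g' g = 1 := by
  classical
  unfold trans
  have h1 : ((g.symm : (Fin n → K) →ₗ[K] (Fin n → K)) ∘ₗ (g' : (Fin n → K) →ₗ[K] (Fin n → K))) ∘ₗ
      ((g'.symm : (Fin n → K) →ₗ[K] (Fin n → K)) ∘ₗ (g : (Fin n → K) →ₗ[K] (Fin n → K))) =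
      LinearMap.id := by
    refine LinearMap.ext fun x => ?_
    change g.symm (g' (g'.symm (g x))) = x
    rw [LinearEquiv.apply_symm_apply, LinearEquiv.symm_apply_apply]
  rw [← LinearMap.toMatrix'_comp, h1, LinearMap.toMatrix'_id]

theorem ge_trans (h : IsDV o π) {g g' : Frame K n} {a a' : Fin n → ℤ}
    (H : latt o g a = latt o g' a') (i j : Fin n) : Ge o (a i - a' j) (trans g g' i j) := by
  classical
  have h1 : g' (Pi.single j (π ^ (a' j))) ∈ latt o g a := by
    rw [H]
    intro k
    rw [LinearEquiv.symm_apply_apply]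
    by_cases hj : k = j
    · subst hj
      rw [Pi.single_eq_same]
      exact h.ge_zpow.2 le_rfl
    · rw [Pi.single_eq_of_ne hj]
      exact ge_zero _
  have h2 := h1 i
  rw [trans_apply] at h2
  exact h.ge_zpow_mul.1 h2

theorem ge_sign_smul (h : IsDV o π) {k : ℤ} {x : K} (s : ℤˣ) (hx : Ge o k x) :
    Ge o k (s • x) := by
  rcases Int.units_eq_one_or s with rfl | rfl
  · rwa [one_smul]
  · have : (-1 : ℤˣ) • x = -x := by
      rw [Units.smul_def]; simp
    rw [this]
    exact h.ge_neg hx

theorem ge_det (h : IsDV o π) {g g' : Frame K n} {a a' : Fin n → ℤ}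
    (H : latt o g a = latt o g' a') :
    Ge o (∑ i, a i - ∑ i, a' i) (trans g g').det := by
  classical
  rw [Matrix.det_apply]
  refine h.ge_sum _ fun σ _ => ge_sign_smul h _ ?_
  have h1 := h.ge_prod Finset.univ (k := fun j => a (σ j) - a' j)
    (f := fun j => trans g g' (σ j) j) fun j _ => ge_trans h H (σ j) j
  rwa [Finset.sum_sub_distrib, Equiv.sum_comp σ a] at h1

theorem prod_ne_zero_of_dv (h : IsDV o π) {ι : Type*} (s : Finset ι) {f : ι → K}
    (hf : ∀ i ∈ s, f i ≠ 0) : o (∏ i ∈ s, f i) = ∑ i ∈ s, o (f i) := by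
  classical
  induction s using Finset.induction_on with
  | empty => simp [h.one]
  | insert a s ha ih =>
    rw [Finset.sum_insert ha, Finset.prod_insert ha, h.mul _ _ (hf a (Finset.mem_insert_self a s))
      (Finset.prod_ne_zero_iff.2 fun i hi => hf i (Finset.mem_insert_of_mem hi)),
      ih fun i hi => hf i (Finset.mem_insert_of_mem hi)]

end T3

theorem T3_perm {K : Type*} [Field K] {o : K → ℤ} {π : K} (h : IsDV o π) {n : ℕ}
    (g g' : Frame K n) :
    ∃ (s : Equiv.Perm (Fin n)) (m : Fin n → ℤ), ∀ a a' : Fin n → ℤ,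
      latt o g a = latt o g' a' → ∀ j, a' j = a (s j) - m j := by
  classical
  have hdet : (trans g g').det * (trans g' g).det = 1 := by
    rw [← Matrix.det_mul, trans_mul, Matrix.det_one]
  have hA0 : (trans g g').det ≠ 0 := left_ne_zero_of_mul (by rw [hdet]; exact one_ne_zero)
  have hB0 : (trans g' g).det ≠ 0 := right_ne_zero_of_mul (by rw [hdet]; exact one_ne_zero)
  -- choice of the permutation
  obtain ⟨s, hs0, hs⟩ : ∃ s : Equiv.Perm (Fin n), ∏ j, trans g g' (s j) j ≠ 0 ∧
      o (∏ j, trans g g' (s j) j) ≤ o (trans g g').det := by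
    by_contra hcon
    push Not at hcon
    have h1 : Ge o (o (trans g g').det + 1) (trans g g').det := by
      rw [Matrix.det_apply]
      refine h.ge_sum _ fun σ _ => ge_sign_smul h _ ?_
      intro h0
      have h2 := hcon σ h0
      rw [Matrix.det_apply] at h2
      omega
    have h3 := h1 hA0
    omega
  refine ⟨s, fun j => o (trans g g' (s j) j), ?_⟩
  intro a a' H
  have hne : ∀ j ∈ Finset.univ, trans g g' (s j) j ≠ 0 :=
    fun j hj => Finset.prod_ne_zero_iff.1 hs0 j hj
  have hA := ge_det h H hA0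
  have hB := ge_det h H.symm hB0
  have hAB : o (trans g g').det + o (trans g' g).det = 0 := by
    rw [← h.mul _ _ hA0 hB0, hdet, h.one]
  have hle : ∀ j ∈ Finset.univ, a (s j) - a' j ≤ o (trans g g' (s j) j) :=
    fun j hj => ge_trans h H (s j) j (hne j hj)
  have hsum : ∑ j, (a (s j) - a' j) = ∑ i, a i - ∑ i, a' i := by
    rw [Finset.sum_sub_distrib, Equiv.sum_comp s a]
  have hsum2 : ∑ j, o (trans g g' (s j) j) ≤ ∑ j, (a (s j) - a' j) := by
    rw [← prod_ne_zero_of_dv h Finset.univ hne, hsum]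
    omega
  have heq := (Finset.sum_eq_sum_iff_of_le hle).1 (le_antisymm (Finset.sum_le_sum hle) hsum2)
  intro j
  have := heq j (Finset.mem_univ j)
  simp only
  omega

end MP26e62b
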