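import Pool.Agent.Lib.MP_26e62b_al.DV

/-!
# T4 : finitely many lattices between `L` and `π L`
-/

namespace MP26e62b

theorem T4_finite {K : Type*} [Field K] {o : K → ℤ} {π : K} (h : IsDV o π) {n : ℕ}
    (T : Finset K) (hT : ∀ x, Ge o 0 x → ∃ c ∈ T, Ge o 1 (x - c)) (hT0 : ∀ c ∈ T, Ge o 0 c)
    (g : Frame K n) :
    {L : Set (Fin n → K) | (∃ g' : Frame K n, L = latt o g' 0) ∧ L ⊆ latt o g 0 ∧
      shift π 1 (latt o g 0) ⊆ L}.Finite := by
  classical
  let F : Set (Fin n → K) → Set (Fin n → T) := fun L => {c | g (fun i => (c i : K)) ∈ L}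
  have key : ∀ L L' : Set (Fin n → K), (∃ g' : Frame K n, L = latt o g' 0) → L ⊆ latt o g 0 →
      shift π 1 (latt o g 0) ⊆ L → (∃ g' : Frame K n, L' = latt o g' 0) →
      shift π 1 (latt o g 0) ⊆ L' → F L = F L' → L ⊆ L' := by
    rintro L L' ⟨g₁, hg₁⟩ hL hsL ⟨g₂, hg₂⟩ hsL' hF x hx
    have h1 := hL hx
    choose c hcT hc using fun i => hT _ (h1 i)
    let d : Fin n → T := fun i => ⟨c i, hcT i⟩
    have hy : x - g c ∈ shift π 1 (latt o g 0) := by
      rw [shift_latt h]
      intro i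
      rw [map_sub, LinearEquiv.symm_apply_apply, Pi.sub_apply]
      simpa using hc i
    have hd : d ∈ F L := by
      change g c ∈ L
      have h2 := hsL hy
      have h3 : g c = x - (x - g c) := by abel
      rw [h3]
      rw [hg₁] at hx h2 ⊢
      intro i
      rw [map_sub, Pi.sub_apply]
      exact h.ge_sub (hx i) (h2 i)
    rw [hF] at hd
    have hd' : g c ∈ L' := hd
    have h2 := hsL' hy
    have h3 : x = g c + (x - g c) := by abel
    rw [h3]
    rw [hg₂] at hd' h2 ⊢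
    intro i
    rw [map_add, Pi.add_apply]
    exact h.ge_add (hd' i) (h2 i)
  refine Set.Finite.of_finite_image (f := F) (Set.toFinite _) ?_
  rintro L ⟨h1, h2, h3⟩ L' ⟨h1', h2', h3'⟩ hF
  exact Set.Subset.antisymm (key L L' h1 h2 h3 h1' h3' hF) (key L' L h1' h2' h3' h1 h3 hF.symm)

end MP26e62b
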