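import Pool.Agent.Lib.MP_26e62b_al.Defs
import Pool.Agent.Lib.MP_26e62b_al.DV
import Pool.Agent.Lib.MP_26e62b_al.T2
import Pool.Agent.Lib.MP_26e62b_al.T3
import Pool.Agent.Lib.MP_26e62b_al.T4

/-! # The building of lattice classes -/

namespace MP26e62b

theorem cls_eq_iff {n : ℕ} (a b : Fin n → ℤ) : cls a = cls b ↔ ∃ m : ℤ, ∀ i, b i = a i + m := by
  unfold cls
  rw [QuotientAddGroup.eq, AddSubgroup.mem_zmultiples_iff]
  constructor
  · rintro ⟨m, hm⟩
    refine ⟨m, fun i => ?_⟩
    have := congrFun hm i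
    simp only [Pi.smul_apply, smul_eq_mul, mul_one, Pi.add_apply, Pi.neg_apply] at this
    omega
  · rintro ⟨m, hm⟩
    refine ⟨m, ?_⟩
    ext i
    simp only [Pi.smul_apply, smul_eq_mul, mul_one, Pi.add_apply, Pi.neg_apply]
    rw [hm i]
    ring

theorem cls_surj {n : ℕ} (x : StdVertex n) : ∃ a, cls a = x := by
  obtain ⟨a, ha⟩ := QuotientAddGroup.mk_surjective x
  exact ⟨a, ha⟩

section

variable {K : Type} [Field K] {o : K → ℤ} {π : K}

/-- The lattices of `K^n`. -/
def Lat (_ : IsDV o π) (n : ℕ) : Type := {L : Set (Fin n → K) // ∃ g : Frame K n, L = latt o g 0}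

variable (h : IsDV o π) {n : ℕ}

/-- The lattice of a frame and an integer vector. -/
def mkLat (g : Frame K n) (a : Fin n → ℤ) : Lat h n := ⟨latt o g a, _, latt_eq h g a⟩

theorem Lat.exists_frame (L : Lat h n) : ∃ g : Frame K n, L.1 = latt o g 0 := L.2

/-- Homothety classes. -/
def latSetoid (n : ℕ) : Setoid (Lat h n) where
  r L L' := ∃ m : ℤ, shift π m L.1 = L'.1
  iseqv := by
    refine ⟨fun L => ⟨0, shift_zero _⟩, ?_, ?_⟩
    · rintro L L' ⟨m, hm⟩
      refine ⟨-m, ?_⟩
      rw [← hm, shift_shift h, neg_add_cancel, shift_zero]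
    · rintro L L' L'' ⟨m, hm⟩ ⟨k, hk⟩
      refine ⟨k + m, ?_⟩
      rw [← hk, ← hm, shift_shift h]

/-- The vertices: homothety classes of lattices. -/
def Vx (n : ℕ) : Type := Quotient (latSetoid h n)

/-- The class of a lattice. -/
def vx (L : Lat h n) : Vx h n := Quotient.mk (latSetoid h n) L

theorem vx_eq_iff (L L' : Lat h n) : vx h L = vx h L' ↔ ∃ m : ℤ, shift π m L.1 = L'.1 :=
  ⟨fun H => Quotient.exact H, fun H => Quotient.sound H⟩

theorem vx_surj (v : Vx h n) : ∃ L, vx h L = v := Quotient.exists_rep v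

/-- Simplices: finite sets of classes with representatives forming a chain between `L` and `π L`. -/
def IsSx (s : Finset (Vx h n)) : Prop :=
  s.Nonempty ∧ ∃ r : Vx h n → Lat h n,
    (∀ v ∈ s, vx h (r v) = v) ∧
    (∀ v ∈ s, ∀ w ∈ s, (r v).1 ⊆ (r w).1 ∨ (r w).1 ⊆ (r v).1) ∧
    (∀ v ∈ s, ∀ w ∈ s, shift π 1 (r v).1 ⊆ (r w).1)

/-- The apartment of a frame. -/
noncomputable def apt (g : Frame K n) (x : StdVertex n) : Vx h n :=
  vx h (mkLat h g (Classical.choose (cls_surj x)))

theorem apt_cls (g : Frame K n) (a : Fin n → ℤ) : apt h g (cls a) = vx h (mkLat h g a) := by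
  unfold apt
  obtain ⟨m, hm⟩ := (cls_eq_iff _ _).1 (Classical.choose_spec (cls_surj (cls a)))
  rw [vx_eq_iff]
  refine ⟨m, ?_⟩
  change shift π m (latt o g _) = latt o g a
  rw [shift_latt h]
  congr 1
  ext i
  exact (hm i).symm

theorem apt_injective (g : Frame K n) : Function.Injective (apt h g) := by
  intro x y hxy
  obtain ⟨a, rfl⟩ := cls_surj x
  obtain ⟨b, rfl⟩ := cls_surj y
  rw [apt_cls, apt_cls, vx_eq_iff] at hxy
  obtain ⟨m, hm⟩ := hxy
  change shift π m (latt o g a) = latt o g b at hm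
  rw [shift_latt h] at hm
  rw [cls_eq_iff]
  exact ⟨m, fun i => (congrFun (latt_injective h g hm) i).symm⟩

include h in
theorem shift_one_latt_subset (g : Frame K n) (a b : Fin n → ℤ) :
    shift π 1 (latt o g a) ⊆ latt o g b ↔ ∀ i, b i ≤ a i + 1 := by
  rw [shift_latt h, latt_subset_iff h]
  exact Iff.rfl

theorem isSx_singleton (v : Vx h n) : IsSx h {v} := by
  refine ⟨Finset.singleton_nonempty v, fun w => Quotient.out w, ?_, ?_, ?_⟩
  · intro w _
    exact Quotient.out_eq w
  · intro w hw w' hw'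
    rw [Finset.mem_singleton] at hw hw'
    subst hw; subst hw'
    exact Or.inl subset_rfl
  · intro w hw w' hw'
    rw [Finset.mem_singleton] at hw hw'
    subst hw; subst hw'
    obtain ⟨g, hg⟩ := (Quotient.out w').2
    rw [hg, shift_one_latt_subset h]
    intro i
    simp

theorem isSx_subset (s t : Finset (Vx h n)) (hs : IsSx h s) (hts : t ⊆ s) (ht : t.Nonempty) :
    IsSx h t := by
  obtain ⟨_, r, h1, h2, h3⟩ := hs
  exact ⟨ht, r, fun v hv => h1 v (hts hv), fun v hv w hw => h2 v (hts hv) w (hts hw),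
    fun v hv w hw => h3 v (hts hv) w (hts hw)⟩

/-- (B0) -/
theorem apt_isSx (g : Frame K n) (s : Finset (StdVertex n)) (t : Finset (Vx h n))
    (hst : ∀ v, v ∈ t ↔ ∃ x ∈ s, apt h g x = v) : IsSx h t ↔ IsStdSimplex s := by
  classical
  have hmem : ∀ x, x ∈ s → apt h g x ∈ t := fun x hx => (hst _).2 ⟨x, hx, rfl⟩
  constructor
  · rintro ⟨ht, r, h1, h2, h3⟩
    obtain ⟨v0, hv0⟩ := ht
    obtain ⟨x0, hx0, _⟩ := (hst _).1 hv0
    -- representatives
    have key : ∀ x ∈ s, ∃ a : Fin n → ℤ, cls a = x ∧ (r (apt h g x)).1 = latt o g a := by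
      intro x hx
      obtain ⟨a, rfl⟩ := cls_surj x
      have := h1 _ (hmem _ hx)
      rw [apt_cls, eq_comm, vx_eq_iff] at this
      obtain ⟨m, hm⟩ := this
      change shift π m (latt o g a) = _ at hm
      rw [shift_latt h] at hm
      refine ⟨fun i => a i + m, ?_, ?_⟩
      · rw [eq_comm, cls_eq_iff]
        exact ⟨m, fun i => rfl⟩
      · rw [apt_cls]
        exact hm.symm
    choose! ρ hρ1 hρ2 using key
    refine ⟨⟨x0, hx0⟩, ρ, hρ1, ?_, ?_⟩
    · intro x hx y hy
      have := h2 _ (hmem _ hx) _ (hmem _ hy)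
      rw [hρ2 x hx, hρ2 y hy, latt_subset_iff h, latt_subset_iff h] at this
      exact this.symm
    · intro x hx y hy
      have := h3 _ (hmem _ hx) _ (hmem _ hy)
      rw [hρ2 x hx, hρ2 y hy, shift_one_latt_subset h] at this
      exact this
  · rintro ⟨hs, r, h1, h2, h3⟩
    obtain ⟨x0, hx0⟩ := hs
    have key : ∀ v ∈ t, ∃ x ∈ s, apt h g x = v := fun v hv => (hst v).1 hv
    choose! ξ hξ1 hξ2 using key
    refine ⟨⟨_, hmem x0 hx0⟩, fun v => mkLat h g (r (ξ v)), ?_, ?_, ?_⟩
    · intro v hv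
      rw [← apt_cls, h1 _ (hξ1 v hv), hξ2 v hv]
    · intro v hv w hw
      change latt o g _ ⊆ latt o g _ ∨ latt o g _ ⊆ latt o g _
      rw [latt_subset_iff h, latt_subset_iff h]
      exact (h2 _ (hξ1 v hv) _ (hξ1 w hw)).symm
    · intro v hv w hw
      change shift π 1 (latt o g _) ⊆ latt o g _
      rw [shift_one_latt_subset h]
      exact h3 _ (hξ1 v hv) _ (hξ1 w hw)

/-- (B1) -/
theorem exists_apt (s t : Finset (Vx h n)) (hs : IsSx h s) (ht : IsSx h t) :
    ∃ g : Frame K n, (∀ v ∈ s, v ∈ Set.range (apt h g)) ∧ (∀ v ∈ t, v ∈ Set.range (apt h g)) := by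
  obtain ⟨⟨v0, hv0⟩, r, h1, h2, h3⟩ := hs
  obtain ⟨⟨w0, hw0⟩, r', h1', h2', h3'⟩ := ht
  have : Nonempty {v // v ∈ s} := ⟨⟨v0, hv0⟩⟩
  have : Nonempty {v // v ∈ t} := ⟨⟨w0, hw0⟩⟩
  obtain ⟨g, hg, hg'⟩ := T2_common_frame h (fun v : {v // v ∈ s} => (r v.1).1)
    (fun v : {v // v ∈ t} => (r' v.1).1) (fun v => (r v.1).2) (fun v => (r' v.1).2)
    (fun v w => h2 _ v.2 _ w.2) (fun v w => h2' _ v.2 _ w.2)
    (fun v w => h3 _ v.2 _ w.2) (fun v w => h3' _ v.2 _ w.2)
  refine ⟨g, fun v hv => ?_, fun v hv => ?_⟩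
  · obtain ⟨a, ha⟩ := hg ⟨v, hv⟩
    refine ⟨cls a, ?_⟩
    rw [apt_cls, ← h1 v hv]
    congr 1
    exact Subtype.ext ha.symm
  · obtain ⟨a, ha⟩ := hg' ⟨v, hv⟩
    refine ⟨cls a, ?_⟩
    rw [apt_cls, ← h1' v hv]
    congr 1
    exact Subtype.ext ha.symm

/-- The automorphism `a ↦ (a (s j) - m j)_j` of the model. -/
def stdMap (s : Equiv.Perm (Fin n)) (m : Fin n → ℤ) : StdVertex n ≃ StdVertex n where
  toFun := Quotient.map' (fun a j => a (s j) - m j) (by
    intro a b hab
    have hab' : cls a = cls b := Quotient.sound' hab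
    obtain ⟨k, hk⟩ := (cls_eq_iff a b).1 hab'
    refine Quotient.exact' ((cls_eq_iff _ _).2 ⟨k, fun j => ?_⟩)
    rw [hk]
    ring)
  invFun := Quotient.map' (fun a i => a (s.symm i) + m (s.symm i)) (by
    intro a b hab
    have hab' : cls a = cls b := Quotient.sound' hab
    obtain ⟨k, hk⟩ := (cls_eq_iff a b).1 hab'
    refine Quotient.exact' ((cls_eq_iff _ _).2 ⟨k, fun j => ?_⟩)
    rw [hk]
    ring)
  left_inv := by
    intro x
    obtain ⟨a, rfl⟩ := cls_surj x
    change cls _ = cls _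
    congr 1
    ext i
    simp
  right_inv := by
    intro x
    obtain ⟨a, rfl⟩ := cls_surj x
    change cls _ = cls _
    congr 1
    ext i
    simp

theorem stdMap_cls (s : Equiv.Perm (Fin n)) (m : Fin n → ℤ) (a : Fin n → ℤ) :
    stdMap s m (cls a) = cls (fun j => a (s j) - m j) := rfl

theorem stdMap_symm_cls (s : Equiv.Perm (Fin n)) (m : Fin n → ℤ) (a : Fin n → ℤ) :
    (stdMap s m).symm (cls a) = cls (fun i => a (s.symm i) + m (s.symm i)) := rfl

theorem stdMap_isStd (s : Equiv.Perm (Fin n)) (m : Fin n → ℤ) (u : Finset (StdVertex n)) :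
    IsStdSimplex (u.map (stdMap s m).toEmbedding) ↔ IsStdSimplex u := by
  constructor
  · rintro ⟨hne, r, h1, h2, h3⟩
    rw [Finset.map_nonempty] at hne
    have hm : ∀ v ∈ u, stdMap s m v ∈ u.map (stdMap s m).toEmbedding := fun v hv =>
      Finset.mem_map_of_mem _ hv
    refine ⟨hne, fun v i => r (stdMap s m v) (s.symm i) + m (s.symm i), ?_, ?_, ?_⟩
    · intro v hv
      have := h1 _ (hm v hv)
      have h4 : (stdMap s m).symm (cls (r (stdMap s m v))) = v := by
        rw [this, Equiv.symm_apply_apply]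
      rw [stdMap_symm_cls] at h4
      exact h4
    · intro v hv w hw
      rcases h2 _ (hm v hv) _ (hm w hw) with h5 | h5
      · left
        intro i
        exact add_le_add_left (h5 (s.symm i)) _
      · right
        intro i
        exact add_le_add_left (h5 (s.symm i)) _
    · intro v hv w hw i
      have := h3 _ (hm v hv) _ (hm w hw) (s.symm i)
      simp only
      omega
  · rintro ⟨hne, r, h1, h2, h3⟩
    have hm : ∀ v ∈ u.map (stdMap s m).toEmbedding, (stdMap s m).symm v ∈ u := by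
      intro v hv
      rw [Finset.mem_map_equiv] at hv
      exact hv
    refine ⟨(Finset.map_nonempty).2 hne, fun v j => r ((stdMap s m).symm v) (s j) - m j, ?_, ?_, ?_⟩
    · intro v hv
      have := h1 _ (hm v hv)
      have h4 : (stdMap s m) (cls (r ((stdMap s m).symm v))) = v := by
        rw [this, Equiv.apply_symm_apply]
      rw [stdMap_cls] at h4
      exact h4
    · intro v hv w hw
      rcases h2 _ (hm v hv) _ (hm w hw) with h5 | h5
      · left
        intro i
        exact sub_le_sub_right (h5 (s i)) _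
      · right
        intro i
        exact sub_le_sub_right (h5 (s i)) _
    · intro v hv w hw i
      have := h3 _ (hm v hv) _ (hm w hw) (s i)
      simp only
      omega

/-- (B2), strong form: the isomorphism fixes the whole intersection. -/
theorem apt_iso (g g' : Frame K n) :
    ∃ φ : StdVertex n ≃ StdVertex n,
      (∀ u : Finset (StdVertex n), IsStdSimplex (u.map φ.toEmbedding) ↔ IsStdSimplex u) ∧
      ∀ x, apt h g x ∈ Set.range (apt h g') → apt h g' (φ x) = apt h g x := by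
  obtain ⟨s, m, hsm⟩ := T3_perm h g g'
  refine ⟨stdMap s m, stdMap_isStd s m, ?_⟩
  rintro x ⟨y, hy⟩
  obtain ⟨a, rfl⟩ := cls_surj x
  obtain ⟨b, rfl⟩ := cls_surj y
  rw [← hy]
  congr 1
  rw [stdMap_cls]
  rw [apt_cls, apt_cls, vx_eq_iff] at hy
  obtain ⟨k, hk⟩ := hy
  change shift π k (latt o g' b) = latt o g a at hk
  rw [shift_latt h] at hk
  have := hsm a _ hk.symm
  rw [cls_eq_iff]
  refine ⟨-k, fun j => ?_⟩
  have := this j
  omega

/-- The building of lattice classes. -/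
noncomputable def latBuilding (n : ℕ) : AffineBuilding n where
  Vertex := Vx h n
  IsSimplex := IsSx h
  nonempty_of_isSimplex := fun _ hs => hs.1
  isSimplex_singleton := isSx_singleton h
  isSimplex_subset := isSx_subset h
  apartments := {f | ∃ g : Frame K n, f = apt h g}
  apartment_injective := by
    rintro _ ⟨g, rfl⟩
    exact apt_injective h g
  apartment_isSimplex := by
    rintro _ ⟨g, rfl⟩ s t hst
    exact apt_isSx h g s t hst
  exists_apartment := by
    intro s t hs ht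
    obtain ⟨g, hg⟩ := exists_apt h s t hs ht
    exact ⟨_, ⟨g, rfl⟩, hg⟩
  apartment_iso := by
    rintro _ ⟨g, rfl⟩ _ ⟨g', rfl⟩ s t _ _ hs ht
    obtain ⟨φ, hφ, hφ'⟩ := apt_iso h g g'
    refine ⟨φ, hφ, ?_⟩
    rintro x (hx | hx)
    · exact hφ' x (hs _ hx).2
    · exact hφ' x (ht _ hx).2

/-! ### local finiteness -/

theorem latBuilding_locallyFinite (n : ℕ) (T : Finset K)
    (hT : ∀ x, Ge o 0 x → ∃ c ∈ T, Ge o 1 (x - c)) (hT0 : ∀ c ∈ T, Ge o 0 c) :
    (latBuilding h n).LocallyFinite := by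
  classical
  intro v
  change {s : Finset (Vx h n) | IsSx h s ∧ v ∈ s}.Finite
  -- the set of vertices adjacent to `v`
  obtain ⟨L, hL⟩ := vx_surj h v
  obtain ⟨g, hg⟩ := L.2
  have hfin := T4_finite h (n := n) T hT hT0 g
  -- all neighbours
  let N : Set (Vx h n) := {w | ∃ L' : Lat h n, vx h L' = w ∧ L'.1 ⊆ latt o g 0 ∧
    shift π 1 (latt o g 0) ⊆ L'.1}
  have hN : N.Finite := by
    let F : Set (Fin n → K) → Vx h n := fun S =>
      if hS : ∃ g' : Frame K n, S = latt o g' 0 then vx h ⟨S, hS⟩ else v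
    refine (hfin.image F).subset ?_
    rintro w ⟨L', rfl, h1, h2⟩
    refine ⟨L'.1, ⟨L'.2, h1, h2⟩, ?_⟩
    exact dif_pos L'.2
  refine (Set.Finite.finite_subsets hN).preimage (f := fun s : Finset (Vx h n) => (s : Set (Vx h n)))
    (Finset.coe_injective.injOn) |>.subset ?_
  rintro s ⟨⟨_, r, h1, h2, h3⟩, hvs⟩
  change (s : Set (Vx h n)) ⊆ N
  intro w hw
  rw [Finset.mem_coe] at hw
  -- move the representative of `v` to `latt o g 0`
  have hv : vx h (r v) = vx h L := by rw [h1 v hvs, hL]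
  obtain ⟨m, hm⟩ := (vx_eq_iff h _ _).1 hv
  rw [hg] at hm
  obtain ⟨gw, hgw⟩ := (r w).2
  have hshift : ∀ k : ℤ, ∃ L' : Lat h n, L'.1 = shift π k (r w).1 := by
    intro k
    refine ⟨mkLat h gw (fun _ => k), ?_⟩
    rw [hgw, shift_latt h]
    change latt o gw _ = _
    congr 1
    ext i
    simp
  rcases h2 w hw v hvs with h4 | h4
  · -- `r w ⊆ r v`
    obtain ⟨L', hL'⟩ := hshift m
    refine ⟨L', ?_, ?_, ?_⟩
    · rw [← h1 w hw, eq_comm, vx_eq_iff]
      exact ⟨m, hL'.symm⟩
    · rw [hL', ← hm]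
      exact shift_mono h4
    · rw [hL', ← hm, shift_shift h, add_comm, ← shift_shift h]
      exact shift_mono (h3 v hvs w hw)
  · -- `r v ⊆ r w`; then `π (r w) ⊆ r v`
    obtain ⟨L', hL'⟩ := hshift (m + 1)
    refine ⟨L', ?_, ?_, ?_⟩
    · rw [← h1 w hw, eq_comm, vx_eq_iff]
      exact ⟨m + 1, hL'.symm⟩
    · rw [hL', ← hm, ← shift_shift h]
      exact shift_mono (h3 w hw v hvs)
    · rw [hL', ← hm, shift_shift h, add_comm]
      exact shift_mono h4

/-! ### the action of the general linear group -/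

/-- image of a lattice. -/
def actLat (g : Frame K n) (L : Lat h n) : Lat h n :=
  ⟨g '' L.1, by
    obtain ⟨g', hg'⟩ := L.2
    exact ⟨g * g', by rw [hg', image_latt]⟩⟩

theorem image_shift (g : Frame K n) (m : ℤ) (L : Set (Fin n → K)) :
    g '' shift π m L = shift π m (g '' L) := by
  ext x
  constructor
  · rintro ⟨y, hy, rfl⟩
    refine ⟨π ^ (-m) • y, hy, ?_⟩
    exact map_smul g _ y
  · rintro ⟨y, hy, hyx⟩
    refine ⟨g.symm x, ?_, LinearEquiv.apply_symm_apply g x⟩
    change π ^ (-m) • g.symm x ∈ L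
    rw [← map_smul, ← hyx, LinearEquiv.symm_apply_apply]
    exact hy

/-- action on vertices. -/
def actVx (g : Frame K n) : Vx h n → Vx h n :=
  Quotient.map (actLat h g) (by
    rintro L L' ⟨m, hm⟩
    refine ⟨m, ?_⟩
    change shift π m (g '' L.1) = g '' L'.1
    rw [← hm, image_shift])

theorem actVx_vx (g : Frame K n) (L : Lat h n) : actVx h g (vx h L) = vx h (actLat h g L) := rfl

theorem actVx_mul (g g' : Frame K n) (v : Vx h n) :
    actVx h (g * g') v = actVx h g (actVx h g' v) := by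
  obtain ⟨L, rfl⟩ := vx_surj h v
  rw [actVx_vx, actVx_vx, actVx_vx]
  congr 1
  apply Subtype.ext
  change (g * g') '' L.1 = g '' (g' '' L.1)
  rw [← Set.image_comp]
  rfl

theorem actVx_one (v : Vx h n) : actVx h (1 : Frame K n) v = v := by
  obtain ⟨L, rfl⟩ := vx_surj h v
  rw [actVx_vx]
  congr 1
  apply Subtype.ext
  change (fun x => x) '' L.1 = L.1
  exact Set.image_id' _

theorem isSx_act (g : Frame K n) {s t : Finset (Vx h n)} (hst : ∀ v, v ∈ t ↔ actVx h g⁻¹ v ∈ s)
    (hs : IsSx h s) : IsSx h t := by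
  obtain ⟨⟨v0, hv0⟩, r, h1, h2, h3⟩ := hs
  refine ⟨⟨actVx h g v0, ?_⟩, fun v => actLat h g (r (actVx h g⁻¹ v)), ?_, ?_, ?_⟩
  · rw [hst, ← actVx_mul, inv_mul_cancel, actVx_one]
    exact hv0
  · intro v hv
    rw [← actVx_vx, h1 _ ((hst v).1 hv), ← actVx_mul, mul_inv_cancel, actVx_one]
  · intro v hv w hw
    change g '' _ ⊆ g '' _ ∨ g '' _ ⊆ g '' _
    rcases h2 _ ((hst v).1 hv) _ ((hst w).1 hw) with h4 | h4
    · exact Or.inl (Set.image_mono h4)
    · exact Or.inr (Set.image_mono h4)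
  · intro v hv w hw
    change shift π 1 (g '' _) ⊆ g '' _
    rw [← image_shift]
    exact Set.image_mono (h3 _ ((hst v).1 hv) _ ((hst w).1 hw))

/-- The permutation of the vertices given by a linear automorphism. -/
def actPerm (g : Frame K n) : Equiv.Perm (Vx h n) where
  toFun := actVx h g
  invFun := actVx h g⁻¹
  left_inv := fun v => by rw [← actVx_mul, inv_mul_cancel, actVx_one]
  right_inv := fun v => by rw [← actVx_mul, mul_inv_cancel, actVx_one]

theorem actPerm_isSx (g : Frame K n) (s : Finset (Vx h n)) :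
    IsSx h (s.map (actPerm h g).toEmbedding) ↔ IsSx h s := by
  constructor
  · intro hs
    refine isSx_act h g⁻¹ (s := s.map (actPerm h g).toEmbedding) ?_ hs
    intro v
    rw [inv_inv, Finset.mem_map_equiv]
    change v ∈ s ↔ (actPerm h g).symm ((actPerm h g) v) ∈ s
    rw [Equiv.symm_apply_apply]
  · intro hs
    refine isSx_act h g (s := s) ?_ hs
    intro v
    rw [Finset.mem_map_equiv]
    exact Iff.rfl

/-- The general linear group acts on the building by automorphisms. -/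
noncomputable def actHom (n : ℕ) : Frame K n →* (latBuilding h n).Aut where
  toFun g := ⟨actPerm h g, fun s => actPerm_isSx h g s⟩
  map_one' := by
    apply Subtype.ext
    apply Equiv.ext
    intro v
    exact actVx_one h v
  map_mul' g g' := by
    apply Subtype.ext
    apply Equiv.ext
    intro v
    exact actVx_mul h g g' v

theorem actHom_apply (g : Frame K n) (v : Vx h n) :
    ((actHom h n g : (latBuilding h n).Aut) : Equiv.Perm (latBuilding h n).Vertex) v
      = actVx h g v := rfl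

end

/-! ### discreteness -/

theorem discrete_of_stab {n : ℕ} (Y : AffineBuilding n) {Γ : Type*} [Group Γ] (ρ : Γ →* Y.Aut)
    (v : Y.Vertex) (hv : ∀ γ, (ρ γ : Equiv.Perm Y.Vertex) v = v → γ = 1) :
    Function.Injective ρ ∧ DiscreteTopology ρ.range := by
  have hinj : ∀ γ γ', (ρ γ : Equiv.Perm Y.Vertex) v = (ρ γ' : Equiv.Perm Y.Vertex) v → γ = γ' := by
    intro γ γ' hγ
    have h1 := hv (γ'⁻¹ * γ) (by
      rw [map_mul, map_inv]
      change (ρ γ' : Equiv.Perm Y.Vertex)⁻¹ ((ρ γ : Equiv.Perm Y.Vertex) v) = v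
      rw [hγ]
      exact Equiv.symm_apply_apply _ v)
    exact (inv_mul_eq_one.1 h1).symm
  refine ⟨fun γ γ' hγ => hinj γ γ' (by rw [hγ]), ?_⟩
  rw [discreteTopology_iff_isOpen_singleton]
  rintro ⟨_, γ, rfl⟩
  let _ : TopologicalSpace Y.Vertex := ⊥
  have : DiscreteTopology Y.Vertex := ⟨rfl⟩
  have hcont : Continuous (fun φ : Y.Aut => (φ.1 : Y.Vertex → Y.Vertex) v) :=
    (continuous_apply (A := fun _ : Y.Vertex => Y.Vertex) v).comp continuous_induced_dom
  have hcont2 : Continuous (fun φ : ρ.range => (φ.1.1 : Y.Vertex → Y.Vertex) v) :=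
    hcont.comp continuous_subtype_val
  have hopen : IsOpen ((fun φ : ρ.range => (φ.1.1 : Y.Vertex → Y.Vertex) v) ⁻¹'
      {(ρ γ : Equiv.Perm Y.Vertex) v}) :=
    (isOpen_discrete (α := Y.Vertex) _).preimage hcont2
  convert hopen using 1
  ext φ
  obtain ⟨_, γ', rfl⟩ := φ
  simp only [Set.mem_singleton_iff, Set.mem_preimage]
  constructor
  · intro H
    exact congrArg (fun φ : ρ.range => ((φ.1 : Y.Aut) : Equiv.Perm Y.Vertex) v) H
  · intro H
    have := hinj γ' γ H
    subst this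
    rfl

end MP26e62b
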