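import Mathlib

/-!
# Definitions for `MP_26e62b_al` (discrete faithful actions of surface groups on Euclidean buildings)

* `StdVertex n`, `IsStdSimplex` : the Coxeter complex of type `Ã_{n-1}` (the model apartment);
* `AffineBuilding n` : a Euclidean (affine) building of type `Ã_{n-1}`, in the sense of Tits (a simplicial
  complex with a system of apartments satisfying the building axioms);
* `AffineBuilding.LocallyFinite`;
* `AffineBuilding.Aut` : the group of simplicial automorphisms, with the topology of pointwise convergence
  on vertices;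
* `SurfaceGroup g` : the fundamental group of the closed orientable surface of genus `g`.
-/

namespace MP26e62b

/-- The vertices of the Coxeter complex of type `Ã_{n-1}`: integer vectors of length `n` modulo the
multiples of the vector `(1, …, 1)`. -/
abbrev StdVertex (n : ℕ) : Type :=
  (Fin n → ℤ) ⧸ AddSubgroup.zmultiples (fun _ : Fin n => (1 : ℤ))

/-- The class of an integer vector. -/
def cls {n : ℕ} (a : Fin n → ℤ) : StdVertex n := QuotientAddGroup.mk a

/-- The simplices of the Coxeter complex of type `Ã_{n-1}`: the non-empty finite sets of classes which have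
representatives forming a chain for the coordinatewise order, any two of which differ by at most `1` in each
coordinate (so `a_0 ≤ a_1 ≤ ⋯ ≤ a_k ≤ a_0 + 1`). -/
def IsStdSimplex {n : ℕ} (s : Finset (StdVertex n)) : Prop :=
  s.Nonempty ∧ ∃ r : StdVertex n → (Fin n → ℤ),
    (∀ v ∈ s, cls (r v) = v) ∧
    (∀ v ∈ s, ∀ w ∈ s, r v ≤ r w ∨ r w ≤ r v) ∧
    (∀ v ∈ s, ∀ w ∈ s, ∀ i, r w i ≤ r v i + 1)

/-- A Euclidean (affine) building of type `Ã_{n-1}`: a simplicial complex on a vertex set `Vertex`, together
with a system of apartments. An apartment is given by an injective parametrisation of its vertices by the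
vertices of the Coxeter complex of type `Ã_{n-1}`. -/
structure AffineBuilding (n : ℕ) where
  /-- the vertices -/
  Vertex : Type
  /-- the (non-empty) simplices, as finite sets of vertices -/
  IsSimplex : Finset Vertex → Prop
  nonempty_of_isSimplex : ∀ s, IsSimplex s → s.Nonempty
  isSimplex_singleton : ∀ v, IsSimplex {v}
  isSimplex_subset : ∀ s t, IsSimplex s → t ⊆ s → t.Nonempty → IsSimplex t
  /-- the apartments, each parametrised by the model apartment -/
  apartments : Set (StdVertex n → Vertex)
  apartment_injective : ∀ f ∈ apartments, Function.Injective f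
  /-- (B0) each apartment is a Coxeter complex of type `Ã_{n-1}`: a finite set of vertices of the apartment is
  a simplex if and only if it corresponds to a simplex of the model. -/
  apartment_isSimplex : ∀ f ∈ apartments, ∀ (s : Finset (StdVertex n)) (t : Finset Vertex),
    (∀ v, v ∈ t ↔ ∃ x ∈ s, f x = v) → (IsSimplex t ↔ IsStdSimplex s)
  /-- (B1) any two simplices are contained in a common apartment. -/
  exists_apartment : ∀ s t, IsSimplex s → IsSimplex t →
    ∃ f ∈ apartments, (∀ v ∈ s, v ∈ Set.range f) ∧ (∀ v ∈ t, v ∈ Set.range f)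
  /-- (B2) if two apartments both contain the simplices `s` and `t`, then there is an isomorphism between them
  which fixes `s` and `t` pointwise. -/
  apartment_iso : ∀ f ∈ apartments, ∀ f' ∈ apartments, ∀ s t, IsSimplex s → IsSimplex t →
    (∀ v ∈ s, v ∈ Set.range f ∧ v ∈ Set.range f') →
    (∀ v ∈ t, v ∈ Set.range f ∧ v ∈ Set.range f') →
    ∃ φ : StdVertex n ≃ StdVertex n,
      (∀ u : Finset (StdVertex n), IsStdSimplex (u.map φ.toEmbedding) ↔ IsStdSimplex u) ∧
      ∀ x, (f x ∈ s ∨ f x ∈ t) → f' (φ x) = f x

namespace AffineBuilding

variable {n : ℕ} (Y : AffineBuilding n)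

/-- Local finiteness: every vertex lies in only finitely many simplices (so the geometric realisation is
locally compact). -/
def LocallyFinite : Prop := ∀ v, {s : Finset Y.Vertex | Y.IsSimplex s ∧ v ∈ s}.Finite

/-- The group of all automorphisms of the building: the bijections of the vertex set which preserve the
simplices in both directions. -/
def Aut : Subgroup (Equiv.Perm Y.Vertex) where
  carrier := {φ | ∀ s : Finset Y.Vertex, Y.IsSimplex (s.map φ.toEmbedding) ↔ Y.IsSimplex s}
  one_mem' := by
    intro s
    have : s.map (Equiv.toEmbedding (1 : Equiv.Perm Y.Vertex)) = s := by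
      ext x
      rw [Finset.mem_map_equiv]
      exact Iff.rfl
    rw [this]
  mul_mem' := by
    intro φ ψ hφ hψ s
    have : s.map (Equiv.toEmbedding (φ * ψ)) = (s.map ψ.toEmbedding).map φ.toEmbedding := by
      ext x
      rw [Finset.mem_map_equiv, Finset.mem_map_equiv, Finset.mem_map_equiv]
      exact Iff.rfl
    rw [this, hφ, hψ]
  inv_mem' := by
    intro φ hφ s
    have h := hφ (s.map (Equiv.toEmbedding φ⁻¹))
    have : (s.map (Equiv.toEmbedding φ⁻¹)).map φ.toEmbedding = s := by
      ext x
      rw [Finset.mem_map_equiv, Finset.mem_map_equiv]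
      change φ (φ.symm x) ∈ s ↔ x ∈ s
      rw [Equiv.apply_symm_apply]
    rw [this] at h
    exact h.symm

/-- The topology of pointwise convergence on vertices on the automorphism group (the vertex set being
discrete). -/
instance : TopologicalSpace Y.Aut :=
  TopologicalSpace.induced (fun φ : Y.Aut => (φ.1 : Y.Vertex → Y.Vertex))
    (@Pi.topologicalSpace Y.Vertex (fun _ => Y.Vertex) (fun _ => ⊥))

end AffineBuilding

/-- The relator `[a_1, b_1] [a_2, b_2] ⋯ [a_g, b_g]`, where `[a, b] = a b a⁻¹ b⁻¹`; the generators are
`a_i = (i, false)` and `b_i = (i, true)`. -/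
def surfaceRelator (g : ℕ) : FreeGroup (Fin g × Bool) :=
  (List.ofFn fun i : Fin g =>
    FreeGroup.of (i, false) * FreeGroup.of (i, true) *
      (FreeGroup.of (i, false))⁻¹ * (FreeGroup.of (i, true))⁻¹).prod

/-- The fundamental group `⟨a_1, b_1, …, a_g, b_g | [a_1, b_1] ⋯ [a_g, b_g]⟩` of the closed orientable surface
of genus `g`. -/
abbrev SurfaceGroup (g : ℕ) : Type := PresentedGroup {surfaceRelator g}

end MP26e62b
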