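import Mathlib

/-! # Right-angled Coxeter groups: definitions -/

namespace MP26e62b

/-- The relators of the right-angled Coxeter group of a graph. -/
def racgRels {S : Type*} (G : SimpleGraph S) : Set (FreeGroup S) :=
  {r | (∃ i, r = FreeGroup.of i * FreeGroup.of i) ∨
    ∃ i j, G.Adj i j ∧ r = FreeGroup.of i * FreeGroup.of j * FreeGroup.of i * FreeGroup.of j}

/-- The right-angled Coxeter group of a graph: generators the vertices, `s_i² = 1`, and adjacent vertices
commute. -/
abbrev RACG {S : Type*} (G : SimpleGraph S) : Type _ := PresentedGroup (racgRels G)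

/-- `F_2((t))`. -/
abbrev KK : Type := LaurentSeries (ZMod 2)

/-- The cycle of length `2g+2`, with vertices `e_j = (j,false)`, `t_j = (j,true)`, `0 ≤ j ≤ g`, and edges
`e_j - t_j`, `t_j - e_{j+1}` and `t_g - e_0`. -/
def cyc (g : ℕ) : SimpleGraph (Fin (g + 1) × Bool) :=
  SimpleGraph.fromRel fun x y =>
    x.2 = false ∧ y.2 = true ∧
      (x.1 = y.1 ∨ (x.1 : ℕ) = (y.1 : ℕ) + 1 ∨ ((x.1 : ℕ) = 0 ∧ (y.1 : ℕ) = g))

end MP26e62b
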