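import Pool.Agent.Lib.MP_26e62b_al.DV
import Pool.Agent.Lib.MP_26e62b_al.Racg

/-! # T5 : right-angled Coxeter groups over `F_2((t))` -/

namespace MP26e62b

namespace T5

section partialmaps

variable {X : Type} [Fintype X] [DecidableEq X] {K : Type} [Field K]

/-- The linear map of a partial map. -/
noncomputable def pm (f : X → Option X) : (X → K) →ₗ[K] (X → K) where
  toFun v x' := ∑ x, if f x = some x' then v x else 0
  map_add' v w := by
    funext x'
    simp only [Pi.add_apply]
    rw [← Finset.sum_add_distrib]
    refine Finset.sum_congr rfl fun x _ => ?_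
    split_ifs <;> simp
  map_smul' c v := by
    funext x'
    simp only [Pi.smul_apply, smul_eq_mul, RingHom.id_apply]
    rw [Finset.mul_sum]
    refine Finset.sum_congr rfl fun x _ => ?_
    split_ifs <;> simp

theorem pm_apply (f : X → Option X) (v : X → K) (x' : X) :
    pm f v x' = ∑ x, if f x = some x' then v x else 0 := rfl

theorem pm_pm (f g : X → Option X) (v : X → K) :
    pm g (pm f v) = pm (fun x => (f x).bind g) v := by
  funext z
  simp only [pm_apply]
  have h1 : (∑ y, if g y = some z then (∑ x, if f x = some y then v x else 0) else 0) =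
      ∑ x, ∑ y, if g y = some z then (if f x = some y then v x else 0) else 0 := by
    rw [Finset.sum_comm]
    refine Finset.sum_congr rfl fun y _ => ?_
    split_ifs <;> simp
  rw [h1]
  refine Finset.sum_congr rfl fun x _ => ?_
  rcases hfx : f x with _ | y0
  · simp
  · rw [Finset.sum_eq_single y0]
    · simp
    · intro y _ hy
      rw [if_neg (c := (some y0 : Option X) = some y)]
      · simp
      · intro h
        exact hy (Option.some.inj h).symm
    · intro h
      exact absurd (Finset.mem_univ _) h

end partialmaps

section step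

variable {S : Type} [DecidableEq S] (G : SimpleGraph S) [DecidableRel G.Adj]

/-- The partial map of a generator. -/
def step (s : S) (D : Finset S) : Option (Finset S) :=
  if s ∈ D then none else some (insert s (D.filter (G.Adj s)))

theorem step_step_self (s : S) (D : Finset S) : (step G s D).bind (step G s) = none := by
  unfold step
  split_ifs with h
  · rfl
  · simp

theorem step_comm {s r : S} (h : G.Adj s r) (D : Finset S) :
    (step G s D).bind (step G r) = (step G r D).bind (step G s) := by
  have hne : s ≠ r := h.ne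
  unfold step
  by_cases hs : s ∈ D
  · by_cases hr : r ∈ D
    · simp [hs, hr]
    · simp [hs, hr, h.symm]
  · by_cases hr : r ∈ D
    · simp [hs, hr, h]
    · have h1 : r ∉ insert s (D.filter (G.Adj s)) := by
        simp [hne.symm, hr]
      have h2 : s ∉ insert r (D.filter (G.Adj r)) := by
        simp [hne, hs]
      simp only [hs, hr, if_false, Option.bind_some, h1, h2]
      congr 1
      ext x
      simp only [Finset.mem_insert, Finset.mem_filter]
      constructor
      · rintro (rfl | ⟨rfl | ⟨hx, hx1⟩, hx2⟩)
        · exact Or.inr ⟨Or.inl rfl, h⟩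
        · exact Or.inl rfl
        · exact Or.inr ⟨Or.inr ⟨hx, hx2⟩, hx1⟩
      · rintro (rfl | ⟨rfl | ⟨hx, hx1⟩, hx2⟩)
        · exact Or.inr ⟨Or.inl rfl, h.symm⟩
        · exact Or.inl rfl
        · exact Or.inr ⟨Or.inr ⟨hx, hx2⟩, hx1⟩

/-- The state of a word. -/
def state : List S → Option (Finset S)
  | [] => some ∅
  | i :: l => (state l).bind (step G i)

theorem state_cons (i : S) (l : List S) : state G (i :: l) = (state G l).bind (step G i) := rfl

theorem step_eq_some {s : S} {D D' : Finset S} (h : step G s D = some D') :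
    s ∉ D ∧ ∀ x, x ∈ D' ↔ x = s ∨ (x ∈ D ∧ G.Adj s x) := by
  unfold step at h
  split_ifs at h with h1
  refine ⟨h1, fun x => ?_⟩
  rw [← Option.some.inj h]
  simp

/-- The product of a word in the group. -/
def wprod (l : List S) : RACG G := (l.map fun i => (PresentedGroup.of i : RACG G)).prod

theorem wprod_cons (i : S) (l : List S) :
    wprod G (i :: l) = (PresentedGroup.of i : RACG G) * wprod G l := by
  simp [wprod]

theorem wprod_nil : wprod G [] = 1 := rfl

theorem of_mul_self (i : S) : (PresentedGroup.of i : RACG G) * PresentedGroup.of i = 1 := by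
  have := PresentedGroup.one_of_mem (rels := racgRels G)
    (x := FreeGroup.of i * FreeGroup.of i) (Or.inl ⟨i, rfl⟩)
  rwa [map_mul] at this

theorem of_mul_comm {i j : S} (h : G.Adj i j) :
    (PresentedGroup.of i : RACG G) * PresentedGroup.of j =
      PresentedGroup.of j * PresentedGroup.of i := by
  have := PresentedGroup.one_of_mem (rels := racgRels G)
    (x := FreeGroup.of i * FreeGroup.of j * FreeGroup.of i * FreeGroup.of j)
    (Or.inr ⟨i, j, h, rfl⟩)
  have h1 : (PresentedGroup.of i : RACG G) * PresentedGroup.of j * PresentedGroup.of i *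
      PresentedGroup.of j = 1 := by rwa [map_mul, map_mul, map_mul] at this
  calc (PresentedGroup.of i : RACG G) * PresentedGroup.of j
      = (PresentedGroup.of i : RACG G) * PresentedGroup.of j * (PresentedGroup.of i *
        (PresentedGroup.of j * PresentedGroup.of j) * PresentedGroup.of i) := by
        rw [of_mul_self, mul_one, of_mul_self, mul_one]
    _ = ((PresentedGroup.of i : RACG G) * PresentedGroup.of j * PresentedGroup.of i *
      PresentedGroup.of j) * (PresentedGroup.of j * PresentedGroup.of i) := by
        simp only [mul_assoc]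
    _ = _ := by rw [h1, one_mul]

theorem wprod_reverse (l : List S) : wprod G l * wprod G l.reverse = 1 := by
  induction l with
  | nil => simp [wprod]
  | cons i l ih =>
    have h1 : wprod G (i :: l).reverse = wprod G l.reverse * PresentedGroup.of i := by
      simp [wprod]
    rw [h1, wprod_cons]
    calc (PresentedGroup.of i : RACG G) * wprod G l * (wprod G l.reverse * PresentedGroup.of i)
        = (PresentedGroup.of i : RACG G) * (wprod G l * wprod G l.reverse) *
          PresentedGroup.of i := by simp only [mul_assoc]
      _ = 1 := by rw [ih, mul_one, of_mul_self]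

theorem exists_wprod (w : RACG G) : ∃ l : List S, wprod G l = w := by
  have hmem : w ∈ Subgroup.closure (Set.range (PresentedGroup.of : S → RACG G)) := by
    have := PresentedGroup.closure_range_of (racgRels G)
    rw [this]
    exact Subgroup.mem_top _
  induction hmem using Subgroup.closure_induction with
  | mem x hx =>
    obtain ⟨i, rfl⟩ := hx
    exact ⟨[i], by simp [wprod]⟩
  | one => exact ⟨[], rfl⟩
  | mul x y _ _ hx hy =>
    obtain ⟨l, rfl⟩ := hx
    obtain ⟨l', rfl⟩ := hy
    exact ⟨l ++ l', by simp [wprod]⟩
  | inv x _ hx =>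
    obtain ⟨l, rfl⟩ := hx
    refine ⟨l.reverse, ?_⟩
    symm
    rw [inv_eq_iff_mul_eq_one]
    exact wprod_reverse G l

/-- (i) a letter in the state can be moved to the front. -/
theorem exists_front (l : List S) : ∀ (D : Finset S) (i : S), state G l = some D → i ∈ D →
    ∃ l' : List S, l'.length + 1 = l.length ∧
      wprod G l = (PresentedGroup.of i : RACG G) * wprod G l' := by
  induction l with
  | nil =>
    intro D i h hi
    have : D = ∅ := (Option.some.inj h).symm
    subst this
    simp at hi
  | cons r l ih =>
    intro D i h hi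
    rw [state_cons] at h
    rcases hl : state G l with _ | D1
    · rw [hl] at h
      simp at h
    · rw [hl] at h
      have h1 := step_eq_some G (show step G r D1 = some D from h)
      rcases (h1.2 i).1 hi with rfl | ⟨hi1, hadj⟩
      · exact ⟨l, rfl, wprod_cons G i l⟩
      · obtain ⟨l', hl', hp⟩ := ih D1 i hl hi1
        refine ⟨r :: l', by simp [hl'], ?_⟩
        rw [wprod_cons, wprod_cons, hp, ← mul_assoc, ← mul_assoc, of_mul_comm G hadj]

/-- (ii) minimal words have a state. -/
theorem state_of_min (l : List S) :
    (∀ l' : List S, wprod G l' = wprod G l → l.length ≤ l'.length) → ∃ D, state G l = some D := by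
  induction l with
  | nil => exact fun _ => ⟨∅, rfl⟩
  | cons r l ih =>
    intro hmin
    obtain ⟨D1, hD1⟩ := ih (by
      intro l' hl'
      have := hmin (r :: l') (by rw [wprod_cons, wprod_cons, hl'])
      simpa using this)
    have hr : r ∉ D1 := by
      intro hr
      obtain ⟨l', hl', hp⟩ := exists_front G l D1 r hD1 hr
      have := hmin l' (by rw [wprod_cons, hp, ← mul_assoc, of_mul_self, one_mul])
      simp only [List.length_cons] at this
      omega
    refine ⟨insert r (D1.filter (G.Adj r)), ?_⟩
    rw [state_cons, hD1]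
    simp only [Option.bind_some]
    unfold step
    rw [if_neg hr]

end step

section rep

variable {S : Type} [Fintype S] [DecidableEq S] (G : SimpleGraph S) [DecidableRel G.Adj]

/-- `t⁻¹` -/
noncomputable def uu : KK := HahnSeries.single (-1 : ℤ) (1 : ZMod 2)

theorem coeff_uu_mul (x : KK) (k : ℤ) : (uu * x).coeff k = x.coeff (k + 1) := by
  unfold uu
  have := HahnSeries.coeff_single_mul_add (r := (1 : ZMod 2)) (x := x) (a := k + 1) (b := (-1 : ℤ))
  rw [one_mul] at this
  rw [← this]
  congr 1
  ring

theorem two_eq_zero : (2 : KK) = 0 := by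
  have : (2 : KK) = HahnSeries.C (2 : ZMod 2) := by
    rw [map_ofNat]
  rw [this, show (2 : ZMod 2) = 0 from rfl, map_zero]

/-- the linear map `1 + u E_s` -/
noncomputable def lin (s : S) : (Finset S → KK) →ₗ[KK] (Finset S → KK) :=
  LinearMap.id + uu • pm (step G s)

theorem lin_apply (s : S) (v : Finset S → KK) : lin G s v = v + uu • pm (step G s) v := rfl

theorem lin_lin_self (s : S) (v : Finset S → KK) : lin G s (lin G s v) = v := by
  rw [lin_apply, lin_apply, map_add, map_smul, pm_pm]
  have h0 : pm (fun x => (step G s x).bind (step G s)) v = 0 := by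
    funext x'
    rw [pm_apply]
    refine Finset.sum_eq_zero fun x _ => ?_
    rw [step_step_self]
    simp
  rw [h0, smul_zero, add_zero, add_assoc]
  have : uu • pm (step G s) v + uu • pm (step G s) v = (2 : KK) • (uu • pm (step G s) v) := by
    rw [two_smul]
  rw [this, two_eq_zero, zero_smul, add_zero]

theorem lin_comm {s r : S} (h : G.Adj s r) (v : Finset S → KK) :
    lin G s (lin G r v) = lin G r (lin G s v) := by
  rw [lin_apply, lin_apply, lin_apply G r, lin_apply G s, map_add, map_smul, pm_pm, map_add,
    map_smul, pm_pm]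
  have : (fun x => (step G r x).bind (step G s)) = (fun x => (step G s x).bind (step G r)) := by
    funext x
    exact step_comm G h.symm x
  rw [this]
  simp only [smul_add]
  abel

/-- the automorphism -/
noncomputable def aut (s : S) : (Finset S → KK) ≃ₗ[KK] (Finset S → KK) :=
  LinearEquiv.ofInvolutive (lin G s) (lin_lin_self G s)

theorem aut_apply (s : S) (v : Finset S → KK) : aut G s v = v + uu • pm (step G s) v := rfl

theorem aut_rel : ∀ r ∈ racgRels G, FreeGroup.lift (aut G) r = 1 := by
  rintro r (⟨i, rfl⟩ | ⟨i, j, hij, rfl⟩)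
  · rw [map_mul, FreeGroup.lift_apply_of]
    ext1 v
    exact lin_lin_self G i v
  · rw [map_mul, map_mul, map_mul, FreeGroup.lift_apply_of, FreeGroup.lift_apply_of]
    ext1 v
    change lin G i (lin G j (lin G i (lin G j v))) = v
    rw [lin_comm G hij v, lin_lin_self, lin_lin_self]

/-- the representation on `Finset S → KK` -/
noncomputable def rep0 : RACG G →* ((Finset S → KK) ≃ₗ[KK] (Finset S → KK)) :=
  PresentedGroup.toGroup (aut_rel G)

theorem rep0_of (s : S) (v : Finset S → KK) :
    rep0 G (PresentedGroup.of s) v = v + uu • pm (step G s) v := by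
  unfold rep0
  rw [PresentedGroup.toGroup.of]
  rfl

/-- (iii) -/
theorem coeff_rep0 (l : List S) : ∀ D : Finset S, state G l = some D → ∀ D' : Finset S,
    (∀ k : ℤ, k < -(l.length : ℤ) → (rep0 G (wprod G l) (Pi.single ∅ 1) D').coeff k = 0) ∧
    (rep0 G (wprod G l) (Pi.single ∅ 1) D').coeff (-(l.length : ℤ)) = if D' = D then 1 else 0 := by
  induction l with
  | nil =>
    intro D hD D'
    have hD0 : D = ∅ := (Option.some.inj hD).symm
    subst hD0
    rw [wprod_nil, map_one]
    change (∀ k : ℤ, k < -((0 : ℕ) : ℤ) → ((Pi.single ∅ 1 : Finset S → KK) D').coeff k = 0) ∧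
      ((Pi.single ∅ 1 : Finset S → KK) D').coeff (-((0 : ℕ) : ℤ)) = if D' = ∅ then 1 else 0
    rw [Pi.single_apply]
    split_ifs with h
    · refine ⟨fun k hk => ?_, ?_⟩
      · rw [HahnSeries.coeff_one, if_neg (by simp at hk; omega)]
      · simp
    · simp
  | cons i l ih =>
    intro D hD D'
    rw [state_cons] at hD
    rcases hl : state G l with _ | D0
    · rw [hl] at hD
      simp at hD
    rw [hl] at hD
    have hD1 : step G i D0 = some D := hD
    have ih0 := ih D0 hl
    rw [wprod_cons, map_mul]
    change (∀ k : ℤ, k < -((i :: l).length : ℤ) →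
      (rep0 G (PresentedGroup.of i) (rep0 G (wprod G l) (Pi.single ∅ 1)) D').coeff k = 0) ∧
      (rep0 G (PresentedGroup.of i) (rep0 G (wprod G l) (Pi.single ∅ 1)) D').coeff
        (-((i :: l).length : ℤ)) = if D' = D then 1 else 0
    rw [rep0_of]
    set v := rep0 G (wprod G l) (Pi.single ∅ 1) with hv
    have hc : ∀ k : ℤ, ((v + uu • pm (step G i) v) D').coeff k =
        (v D').coeff k + ∑ x, if step G i x = some D' then (v x).coeff (k + 1) else 0 := by
      intro k
      rw [Pi.add_apply, Pi.smul_apply, smul_eq_mul, HahnSeries.coeff_add, coeff_uu_mul, pm_apply,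
        HahnSeries.coeff_sum]
      congr 1
      refine Finset.sum_congr rfl fun x _ => ?_
      split_ifs <;> simp
    have hlen : ((i :: l).length : ℤ) = (l.length : ℤ) + 1 := by simp
    rw [hlen]
    refine ⟨fun k hk => ?_, ?_⟩
    · rw [hc, (ih0 D').1 k (by omega), zero_add]
      refine Finset.sum_eq_zero fun x _ => ?_
      rw [(ih0 x).1 (k + 1) (by omega)]
      simp
    · rw [hc, (ih0 D').1 _ (by omega), zero_add]
      have : (-((l.length : ℤ) + 1) + 1) = -(l.length : ℤ) := by ring
      rw [this]
      rw [Finset.sum_eq_single D0]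
      · rw [(ih0 D0).2, if_pos rfl, hD1]
        by_cases h : D' = D
        · rw [if_pos h, if_pos (by rw [h])]
        · rw [if_neg h, if_neg (fun h1 => h (Option.some.inj h1).symm)]
      · intro x _ hx
        rw [(ih0 x).2, if_neg hx]
        simp
      · intro h
        exact absurd (Finset.mem_univ _) h

end rep

end T5

theorem T5_racg_rep {S : Type} [Fintype S] [DecidableEq S] (G : SimpleGraph S) :
    ∃ (n : ℕ) (ρ : RACG G →* Frame KK n), ∀ w : RACG G, w ≠ 1 →
      ∃ (i j : Fin n) (k : ℤ), k < 0 ∧ (ρ w (Pi.single j 1) i).coeff k ≠ 0 := by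
  classical
  let ε := Fintype.equivFin (Finset S)
  let e : (Finset S → KK) ≃ₗ[KK] (Fin (Fintype.card (Finset S)) → KK) :=
    LinearEquiv.funCongrLeft KK KK ε.symm
  refine ⟨Fintype.card (Finset S),
    { toFun := fun w => e.symm.trans ((T5.rep0 G w).trans e)
      map_one' := ?_
      map_mul' := ?_ }, ?_⟩
  · rw [map_one]
    ext1 v
    change e (e.symm v) = v
    simp
  · intro w w'
    rw [map_mul]
    ext1 v
    change e (T5.rep0 G w (T5.rep0 G w' (e.symm v))) =
      e (T5.rep0 G w (e.symm (e (T5.rep0 G w' (e.symm v)))))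
    rw [LinearEquiv.symm_apply_apply]
  · intro w hw
    -- a minimal word
    have hex : ∃ n : ℕ, ∃ l : List S, T5.wprod G l = w ∧ l.length = n := by
      obtain ⟨l, hl⟩ := T5.exists_wprod G w
      exact ⟨l.length, l, hl, rfl⟩
    obtain ⟨l, hl, hln⟩ := Nat.find_spec hex
    have hmin : ∀ l' : List S, T5.wprod G l' = T5.wprod G l → l.length ≤ l'.length := by
      intro l' hl'
      rw [hln]
      exact Nat.find_min' hex ⟨l', hl'.trans hl, rfl⟩
    obtain ⟨D, hD⟩ := T5.state_of_min G l hmin
    have hpos : 0 < l.length := by
      rcases l with _ | ⟨i, l⟩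
      · exact absurd hl.symm hw
      · simp
    refine ⟨ε D, ε ∅, -(l.length : ℤ), by omega, ?_⟩
    have h1 : e.symm (Pi.single (ε ∅) 1) = Pi.single ∅ 1 := by
      rw [LinearEquiv.symm_apply_eq]
      funext x
      change _ = (Pi.single ∅ 1 : Finset S → KK) (ε.symm x)
      rw [Pi.single_apply, Pi.single_apply]
      by_cases hx : x = ε ∅
      · rw [if_pos hx, if_pos (by rw [hx, Equiv.symm_apply_apply])]
      · rw [if_neg hx, if_neg (fun h => hx (by rw [← h, Equiv.apply_symm_apply]))]
    change (T5.rep0 G w (e.symm (Pi.single (ε ∅) 1)) (ε.symm (ε D))).coeff _ ≠ 0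
    rw [h1, Equiv.symm_apply_apply, ← hl, (T5.coeff_rep0 G l D hD D).2, if_pos rfl]
    exact one_ne_zero

end MP26e62b
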