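import Pool.Agent.Lib.MP_26e62b_al.DV
import Pool.Agent.Lib.MP_26e62b_al.Racg

/-! # The valuation of `F_2((t))` -/

namespace MP26e62b

theorem T7_laurent : IsDV (HahnSeries.order : KK → ℤ) (HahnSeries.single (1 : ℤ) (1 : ZMod 2)) := by
  refine ⟨?_, ?_, ?_, ?_⟩
  · intro x y hx hy
    exact HahnSeries.order_mul hx hy
  · intro x y _ _ hxy
    exact HahnSeries.min_order_le_order_add hxy
  · exact HahnSeries.single_ne_zero one_ne_zero
  · exact HahnSeries.order_single one_ne_zero

theorem T7_coeff (x : KK) (k : ℤ) :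
    Ge (HahnSeries.order : KK → ℤ) k x ↔ ∀ j < k, x.coeff j = 0 := by
  constructor
  · intro H j hj
    by_cases hx : x = 0
    · rw [hx]; rfl
    · exact HahnSeries.coeff_eq_zero_of_lt_order (lt_of_lt_of_le hj (H hx))
  · intro H hx
    by_contra hlt
    rw [not_le] at hlt
    exact (HahnSeries.coeff_order_eq_zero.not.2 hx) (H _ hlt)

theorem T7_residue (x : KK) (hx : Ge (HahnSeries.order : KK → ℤ) 0 x) :
    Ge (HahnSeries.order : KK → ℤ) 1 x ∨ Ge (HahnSeries.order : KK → ℤ) 1 (x - 1) := by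
  rw [T7_coeff] at hx
  rw [T7_coeff, T7_coeff]
  have h2 : ∀ c : ZMod 2, c = 0 ∨ c = 1 := by decide
  rcases h2 (x.coeff 0) with h0 | h0
  · left
    intro j hj
    rcases (by omega : j < 0 ∨ j = 0) with h1 | h1
    · exact hx j h1
    · rw [h1, h0]
  · right
    intro j hj
    rw [HahnSeries.coeff_sub, HahnSeries.coeff_one]
    rcases (by omega : j < 0 ∨ j = 0) with h1 | h1
    · rw [if_neg h1.ne, hx j h1, sub_zero]
    · rw [h1, if_pos rfl, h0, sub_self]

end MP26e62b
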