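import Pool.Agent.Lib.MP_26e62b_al.Cx
import Pool.Agent.Lib.MP_26e62b_al.T5
import Pool.Agent.Lib.MP_26e62b_al.T7

/-! # The stabiliser of the standard vertex is trivial -/

namespace MP26e62b

/-- The building of lattice classes over `F_2((t))`. -/
noncomputable abbrev YY (n : ℕ) : AffineBuilding n := latBuilding T7_laurent n

theorem YY_locallyFinite (n : ℕ) : (YY n).LocallyFinite := by
  classical
  refine latBuilding_locallyFinite T7_laurent n {0, 1} ?_ ?_
  · intro x hx
    rcases T7_residue x hx with h | h
    · exact ⟨0, by simp, by rwa [sub_zero]⟩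
    · exact ⟨1, by simp, h⟩
  · intro c hc
    rw [Finset.mem_insert, Finset.mem_singleton] at hc
    rcases hc with rfl | rfl
    · exact ge_zero _
    · intro _
      rw [HahnSeries.order_one]

/-- The standard vertex `[R^n]`. -/
noncomputable def v0 (n : ℕ) : (YY n).Vertex := vx T7_laurent (mkLat T7_laurent (1 : Frame KK n) 0)

theorem stab_trivial {W : Type*} [Group W] {n : ℕ} (ρ : W →* Frame KK n)
    (hρ : ∀ w : W, w ≠ 1 → ∃ (i j : Fin n) (k : ℤ), k < 0 ∧ (ρ w (Pi.single j 1) i).coeff k ≠ 0)
    (w : W) (hw : actVx T7_laurent (ρ w) (v0 n) = v0 n) : w = 1 := by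
  -- an element mapping `R^n` into itself is trivial
  have key : ∀ w : W, latt HahnSeries.order (ρ w) (0 : Fin n → ℤ) ⊆
      latt HahnSeries.order (1 : Frame KK n) 0 → w = 1 := by
    intro w hsub
    by_contra hw1
    obtain ⟨i, j, k, hk, hc⟩ := hρ w hw1
    have h1 : ρ w (Pi.single j 1) ∈ latt HahnSeries.order (ρ w) (0 : Fin n → ℤ) := by
      intro l
      rw [LinearEquiv.symm_apply_apply]
      by_cases hl : l = j
      · subst hl
        rw [Pi.single_eq_same]
        intro _
        rw [HahnSeries.order_one]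
        exact le_rfl
      · rw [Pi.single_eq_of_ne hl]
        exact ge_zero _
    have h2 := hsub h1 i
    change Ge HahnSeries.order (0 : ℤ) (ρ w (Pi.single j 1) i) at h2
    rw [T7_coeff] at h2
    exact hc (h2 k hk)
  unfold v0 at hw
  rw [actVx_vx, vx_eq_iff] at hw
  obtain ⟨m, hm⟩ := hw
  change shift _ m (ρ w '' latt HahnSeries.order (1 : Frame KK n) 0) =
    latt HahnSeries.order (1 : Frame KK n) 0 at hm
  rw [image_latt, mul_one, shift_latt T7_laurent] at hm
  rcases le_total m 0 with h0 | h0
  · -- `latt (ρ w) 0 ⊆ latt (ρ w) m = R^n`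
    apply key
    rw [← hm, latt_subset_iff T7_laurent]
    intro i
    simpa using h0
  · -- apply the inverse
    have h1 : latt HahnSeries.order (1 : Frame KK n) (fun i => (0 : Fin n → ℤ) i + m) =
        latt HahnSeries.order (ρ w⁻¹) 0 := by
      have h2 := congrArg (fun S => (ρ w⁻¹) '' S) hm
      rw [image_latt, image_latt, ← map_mul, inv_mul_cancel, map_one, mul_one] at h2
      exact h2
    have h3 : w⁻¹ = 1 := by
      apply key
      rw [← h1, latt_subset_iff T7_laurent]
      intro i
      simpa using h0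
    exact inv_eq_one.1 h3

end MP26e62b
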