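import Pool.Agent.Lib.MP_26e62b_al.DV

/-!
# Simultaneous splitting of two ultrametric norms on `K^n`
-/

namespace MP26e62b

section norms

variable {K : Type*} [Field K] {n : ℕ}

/-- An integer-valued (ultrametric) norm of scale `M` on `K^n` (only the values on nonzero vectors matter). -/
structure IsNorm (o : K → ℤ) (M : ℤ) (α : (Fin n → K) → ℤ) : Prop where
  smul : ∀ (c : K) (x : Fin n → K), c ≠ 0 → x ≠ 0 → α (c • x) = M * o c + α x
  add : ∀ x y : Fin n → K, x ≠ 0 → y ≠ 0 → x + y ≠ 0 → min (α x) (α y) ≤ α (x + y)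

/-- The norm `α` is split by the frame `g`: `α x = min_i α (x_i g(e_i))`. -/
def Splits (o : K → ℤ) (M : ℤ) (α : (Fin n → K) → ℤ) (g : Frame K n) : Prop :=
  ∀ x : Fin n → K, x ≠ 0 → ∀ k : ℤ, k ≤ α x ↔
    ∀ i, g.symm x i ≠ 0 → k ≤ M * o (g.symm x i) + α (g (Pi.single i 1))

end norms

namespace SplitTwo

variable {K : Type*} [Field K] {n : ℕ}

/-- insert a zero coordinate at the place `i0` -/
def ins (i0 : Fin (n + 1)) (y : Fin n → K) : Fin (n + 1) → K :=
  Fin.insertNth (α := fun _ => K) i0 0 y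

theorem ins_self (i0 : Fin (n + 1)) (y : Fin n → K) : ins i0 y i0 = 0 := by
  simp [ins]

theorem ins_succAbove (i0 : Fin (n + 1)) (y : Fin n → K) (j : Fin n) :
    ins i0 y (i0.succAbove j) = y j := by
  simp [ins]

theorem ext_at (i0 : Fin (n + 1)) {v w : Fin (n + 1) → K} (h0 : v i0 = w i0)
    (h1 : ∀ j, v (i0.succAbove j) = w (i0.succAbove j)) : v = w := by
  funext i
  rcases Fin.eq_self_or_eq_succAbove i0 i with rfl | ⟨j, rfl⟩
  · exact h0
  · exact h1 j

theorem ins_add (i0 : Fin (n + 1)) (y z : Fin n → K) : ins i0 (y + z) = ins i0 y + ins i0 z := by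
  refine ext_at i0 ?_ fun j => ?_
  · rw [Pi.add_apply, ins_self, ins_self, ins_self, add_zero]
  · rw [Pi.add_apply, ins_succAbove, ins_succAbove, ins_succAbove, Pi.add_apply]

theorem ins_smul (i0 : Fin (n + 1)) (c : K) (y : Fin n → K) : ins i0 (c • y) = c • ins i0 y := by
  refine ext_at i0 ?_ fun j => ?_
  · rw [Pi.smul_apply, ins_self, ins_self, smul_zero]
  · rw [Pi.smul_apply, ins_succAbove, ins_succAbove, Pi.smul_apply]

theorem ins_zero (i0 : Fin (n + 1)) : ins i0 (0 : Fin n → K) = 0 := by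
  refine ext_at i0 ?_ fun j => ?_
  · rw [ins_self, Pi.zero_apply]
  · rw [ins_succAbove, Pi.zero_apply, Pi.zero_apply]

theorem ins_ne (i0 : Fin (n + 1)) {y : Fin n → K} (hy : y ≠ 0) : ins i0 y ≠ 0 := by
  intro h
  apply hy
  funext j
  have := congrFun h (i0.succAbove j)
  rwa [ins_succAbove] at this

theorem ins_single (i0 : Fin (n + 1)) (j : Fin n) :
    ins i0 (Pi.single j (1 : K)) = Pi.single (i0.succAbove j) 1 := by
  classical
  refine ext_at i0 ?_ fun l => ?_
  · rw [ins_self, Pi.single_eq_of_ne (Fin.succAbove_ne i0 j).symm]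
  · rw [ins_succAbove]
    by_cases hl : l = j
    · subst hl
      rw [Pi.single_eq_same, Pi.single_eq_same]
    · rw [Pi.single_eq_of_ne hl, Pi.single_eq_of_ne]
      intro h
      exact hl (Fin.succAbove_right_injective h)

/-- the remaining coordinates of `v - v_{i0} x` -/
def rest (i0 : Fin (n + 1)) (x : Fin (n + 1) → K) (v : Fin (n + 1) → K) : Fin n → K :=
  fun j => v (i0.succAbove j) - v i0 * x (i0.succAbove j)

theorem decomp (i0 : Fin (n + 1)) {x : Fin (n + 1) → K} (hx : x i0 = 1) (v : Fin (n + 1) → K) :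
    v i0 • x + ins i0 (rest i0 x v) = v := by
  refine ext_at i0 ?_ fun j => ?_
  · rw [Pi.add_apply, ins_self, Pi.smul_apply, hx, smul_eq_mul, mul_one, add_zero]
  · rw [Pi.add_apply, ins_succAbove, Pi.smul_apply, smul_eq_mul, rest]
    ring

/-- the new frame -/
def newFrame (i0 : Fin (n + 1)) (x : Fin (n + 1) → K) (hx : x i0 = 1) (g1 : Frame K n) :
    Frame K (n + 1) where
  toFun c := c 0 • x + ins i0 (g1 (fun j => c j.succ))
  map_add' c d := by
    have h1 : (fun j : Fin n => (c + d) j.succ) = (fun j => c j.succ) + fun j => d j.succ := rfl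
    rw [h1, map_add, ins_add, Pi.add_apply, add_smul]
    abel
  map_smul' a c := by
    have h1 : (fun j : Fin n => (a • c) j.succ) = a • fun j => c j.succ := rfl
    rw [h1, map_smul, ins_smul, Pi.smul_apply, smul_eq_mul, mul_smul, RingHom.id_apply, smul_add]
  invFun v := Fin.cons (α := fun _ => K) (v i0) (g1.symm (rest i0 x v))
  left_inv c := by
    have h0 : (c 0 • x + ins i0 (g1 (fun j => c j.succ))) i0 = c 0 := by
      rw [Pi.add_apply, ins_self, Pi.smul_apply, hx, smul_eq_mul, mul_one, add_zero]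
    have h1 : rest i0 x (c 0 • x + ins i0 (g1 (fun j => c j.succ))) = g1 (fun j => c j.succ) := by
      funext j
      rw [rest, h0, Pi.add_apply, ins_succAbove, Pi.smul_apply, smul_eq_mul]
      ring
    change Fin.cons (α := fun _ => K) ((c 0 • x + ins i0 (g1 (fun j => c j.succ))) i0)
      (g1.symm (rest i0 x (c 0 • x + ins i0 (g1 (fun j => c j.succ))))) = c
    rw [h0, h1, LinearEquiv.symm_apply_apply]
    funext i
    refine Fin.cases ?_ (fun j => ?_) i
    · rfl
    · rfl
  right_inv v := by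
    change (Fin.cons (α := fun _ => K) (v i0) (g1.symm (rest i0 x v)) : Fin (n + 1) → K) 0 • x +
      ins i0 (g1 (fun j => (Fin.cons (α := fun _ => K) (v i0) (g1.symm (rest i0 x v)) :
        Fin (n + 1) → K) j.succ)) = v
    have h1 : (fun j : Fin n => (Fin.cons (α := fun _ => K) (v i0) (g1.symm (rest i0 x v)) :
        Fin (n + 1) → K) j.succ) = g1.symm (rest i0 x v) := rfl
    rw [h1, LinearEquiv.apply_symm_apply, Fin.cons_zero]
    exact decomp i0 hx v

theorem newFrame_apply (i0 : Fin (n + 1)) (x : Fin (n + 1) → K) (hx : x i0 = 1) (g1 : Frame K n)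
    (c : Fin (n + 1) → K) :
    newFrame i0 x hx g1 c = c 0 • x + ins i0 (g1 (fun j => c j.succ)) := rfl

theorem newFrame_symm_zero (i0 : Fin (n + 1)) (x : Fin (n + 1) → K) (hx : x i0 = 1)
    (g1 : Frame K n) (v : Fin (n + 1) → K) : (newFrame i0 x hx g1).symm v 0 = v i0 := rfl

theorem newFrame_symm_succ (i0 : Fin (n + 1)) (x : Fin (n + 1) → K) (hx : x i0 = 1)
    (g1 : Frame K n) (v : Fin (n + 1) → K) (j : Fin n) :
    (newFrame i0 x hx g1).symm v j.succ = g1.symm (rest i0 x v) j := rfl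

theorem newFrame_single_zero (i0 : Fin (n + 1)) (x : Fin (n + 1) → K) (hx : x i0 = 1)
    (g1 : Frame K n) : newFrame i0 x hx g1 (Pi.single 0 1) = x := by
  rw [newFrame_apply, Pi.single_eq_same, one_smul]
  have h1 : (fun j : Fin n => (Pi.single 0 1 : Fin (n + 1) → K) j.succ) = 0 := by
    funext j
    rw [Pi.single_eq_of_ne (Fin.succ_ne_zero j), Pi.zero_apply]
  rw [h1, map_zero, ins_zero, add_zero]

theorem newFrame_single_succ (i0 : Fin (n + 1)) (x : Fin (n + 1) → K) (hx : x i0 = 1)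
    (g1 : Frame K n) (j : Fin n) :
    newFrame i0 x hx g1 (Pi.single j.succ 1) = ins i0 (g1 (Pi.single j 1)) := by
  rw [newFrame_apply, Pi.single_eq_of_ne (Fin.succ_ne_zero j).symm, zero_smul, zero_add]
  congr 2
  funext l
  by_cases hl : l = j
  · subst hl
    rw [Pi.single_eq_same, Pi.single_eq_same]
  · rw [Pi.single_eq_of_ne hl, Pi.single_eq_of_ne]
    intro h
    exact hl (Fin.succ_injective n h)

variable {o : K → ℤ} {π : K} {M : ℤ}

/-- the extension step for one norm -/
theorem extend (h : IsDV o π) {γ : (Fin (n + 1) → K) → ℤ} (hγ : IsNorm o M γ) {i0 : Fin (n + 1)}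
    {x : Fin (n + 1) → K} (hx : x i0 = 1)
    (hP : ∀ v, v ≠ 0 → ∀ k, k ≤ γ v → v i0 ≠ 0 → k ≤ M * o (v i0) + γ x)
    {g1 : Frame K n} (hg1 : Splits o M (fun y => γ (ins i0 y)) g1) :
    Splits o M γ (newFrame i0 x hx g1) := by
  have hx0 : x ≠ 0 := by
    rintro rfl
    rw [Pi.zero_apply] at hx
    exact zero_ne_one hx
  intro v hv k
  have hd := decomp i0 hx v
  -- the right hand side
  have hR : (∀ i, (newFrame i0 x hx g1).symm v i ≠ 0 →
      k ≤ M * o ((newFrame i0 x hx g1).symm v i) + γ (newFrame i0 x hx g1 (Pi.single i 1))) ↔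
      (v i0 ≠ 0 → k ≤ M * o (v i0) + γ x) ∧
        (rest i0 x v ≠ 0 → k ≤ γ (ins i0 (rest i0 x v))) := by
    constructor
    · intro H
      refine ⟨?_, ?_⟩
      · have := H 0
        rwa [newFrame_symm_zero, newFrame_single_zero] at this
      · intro hw
        refine (hg1 _ hw k).2 fun j => ?_
        have := H j.succ
        rwa [newFrame_symm_succ, newFrame_single_succ] at this
    · rintro ⟨H0, H1⟩ i
      refine Fin.cases ?_ (fun j => ?_) i
      · rw [newFrame_symm_zero, newFrame_single_zero]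
        exact H0
      · rw [newFrame_symm_succ, newFrame_single_succ]
        intro hj
        have hw : rest i0 x v ≠ 0 := by
          intro h0
          rw [h0, map_zero] at hj
          exact hj rfl
        exact (hg1 _ hw k).1 (H1 hw) j hj
  rw [hR]
  constructor
  · intro hk
    refine ⟨hP v hv k hk, fun hw => ?_⟩
    by_cases hc : v i0 = 0
    · have h1 : ins i0 (rest i0 x v) = v := by
        have hd' := hd
        rw [hc, zero_smul, zero_add] at hd'
        exact hd'
      rwa [h1]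
    · have h1 : ins i0 (rest i0 x v) = v + (-(v i0)) • x := by
        rw [neg_smul, ← sub_eq_add_neg]
        exact eq_sub_of_add_eq' hd
      have h2 : -(v i0) ≠ 0 := neg_ne_zero.2 hc
      have h3 := hγ.smul (-(v i0)) x h2 hx0
      rw [h.neg hc] at h3
      have h4 := hP v hv k hk hc
      have h5 := hγ.add v ((-(v i0)) • x) hv (smul_ne_zero h2 hx0) (by
        rw [← h1]; exact ins_ne i0 hw)
      rw [h1]
      exact (le_min hk (by rw [h3]; exact h4)).trans h5
  · rintro ⟨H0, H1⟩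
    by_cases hc : v i0 = 0
    · have h1 : ins i0 (rest i0 x v) = v := by
        have hd' := hd
        rw [hc, zero_smul, zero_add] at hd'
        exact hd'
      have hw : rest i0 x v ≠ 0 := by
        intro h0
        rw [h0, ins_zero] at h1
        exact hv h1.symm
      have := H1 hw
      rwa [h1] at this
    · by_cases hw : rest i0 x v = 0
      · have h1 : v i0 • x = v := by
          have hd' := hd
          rw [hw, ins_zero, add_zero] at hd'
          exact hd'
        have h3 := hγ.smul (v i0) x hc hx0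
        rw [h1] at h3
        rw [h3]
        exact H0 hc
      · have h3 := hγ.smul (v i0) x hc hx0
        have h5 := hγ.add (v i0 • x) (ins i0 (rest i0 x v)) (smul_ne_zero hc hx0) (ins_ne i0 hw)
          (by rw [hd]; exact hv)
        rw [hd] at h5
        exact (le_min (by rw [h3]; exact H0 hc) (H1 hw)).trans h5

theorem isNorm_ins {γ : (Fin (n + 1) → K) → ℤ} (hγ : IsNorm o M γ) (i0 : Fin (n + 1)) :
    IsNorm o M (fun y : Fin n → K => γ (ins i0 y)) where
  smul c y hc hy := by
    rw [ins_smul]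
    exact hγ.smul c _ hc (ins_ne i0 hy)
  add y z hy hz hyz := by
    rw [ins_add]
    refine hγ.add _ _ (ins_ne i0 hy) (ins_ne i0 hz) ?_
    rw [← ins_add]
    exact ins_ne i0 hyz

theorem splits_ins {γ : (Fin (n + 1) → K) → ℤ} (i0 : Fin (n + 1))
    (hγ : Splits o M γ (1 : Frame K (n + 1))) :
    Splits o M (fun y : Fin n → K => γ (ins i0 y)) (1 : Frame K n) := by
  intro y hy k
  change k ≤ γ (ins i0 y) ↔ ∀ j, y j ≠ 0 → k ≤ M * o (y j) + γ (ins i0 (Pi.single j 1))
  rw [hγ _ (ins_ne i0 hy) k]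
  change (∀ i, ins i0 y i ≠ 0 → k ≤ M * o (ins i0 y i) + γ (Pi.single i 1)) ↔ _
  constructor
  · intro H j
    have := H (i0.succAbove j)
    rw [ins_succAbove] at this
    rwa [ins_single]
  · intro H i
    rcases Fin.eq_self_or_eq_succAbove i0 i with rfl | ⟨j, rfl⟩
    · intro hi
      rw [ins_self] at hi
      exact absurd rfl hi
    · rw [ins_succAbove]
      have := H j
      rwa [ins_single] at this

theorem main (h : IsDV o π) : ∀ (n : ℕ) (α β : (Fin n → K) → ℤ), IsNorm o M α → IsNorm o M β →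
    Splits o M α (1 : Frame K n) → (∃ δ : ℤ, ∀ x, x ≠ 0 → β x ≤ α x + δ) →
    ∃ g' : Frame K n, Splits o M α g' ∧ Splits o M β g' := by
  intro n
  induction n with
  | zero =>
    intro α β _ _ _ _
    exact ⟨1, fun x hx => absurd (Subsingleton.elim x 0) hx,
      fun x hx => absurd (Subsingleton.elim x 0) hx⟩
  | succ n ih =>
    intro α β hα hβ hg hbd
    obtain ⟨δ0, hδ0⟩ := hbd
    obtain ⟨δ, ⟨x1, hx1, hx1δ⟩, hmax⟩ := Int.exists_greatest_of_bdd
      (P := fun z => ∃ x : Fin (n + 1) → K, x ≠ 0 ∧ β x - α x = z)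
      ⟨δ0, by
        rintro z ⟨x, hx, rfl⟩
        have := hδ0 x hx
        omega⟩
      ⟨_, ⟨fun _ => 1, by
        intro h0
        exact one_ne_zero (congrFun h0 0), rfl⟩⟩
    have hmax' : ∀ x : Fin (n + 1) → K, x ≠ 0 → β x - α x ≤ δ := fun x hx => hmax _ ⟨x, hx, rfl⟩
    -- the coordinate
    have hs1 := (hg x1 hx1 (α x1)).1 le_rfl
    have hs2 : ¬ ∀ i, (1 : Frame K (n + 1)).symm x1 i ≠ 0 →
        α x1 + 1 ≤ M * o ((1 : Frame K (n + 1)).symm x1 i) +
          α ((1 : Frame K (n + 1)) (Pi.single i 1)) := by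
      intro H
      have := (hg x1 hx1 (α x1 + 1)).2 H
      omega
    push Not at hs2
    obtain ⟨i0, hi0, hlt⟩ := hs2
    have hle := hs1 i0 hi0
    change x1 i0 ≠ 0 at hi0
    change M * o (x1 i0) + α (Pi.single i0 1) < α x1 + 1 at hlt
    change α x1 ≤ M * o (x1 i0) + α (Pi.single i0 1) at hle
    have heq : α x1 = M * o (x1 i0) + α (Pi.single i0 1) := by omega
    -- rescale
    have hinv : (x1 i0)⁻¹ ≠ 0 := inv_ne_zero hi0
    have hx : ((x1 i0)⁻¹ • x1) i0 = 1 := by
      rw [Pi.smul_apply, smul_eq_mul, inv_mul_cancel₀ hi0]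
    have hαx : α ((x1 i0)⁻¹ • x1) = α (Pi.single i0 1) := by
      rw [hα.smul _ _ hinv hx1, h.inv hi0, heq]
      ring
    have hβx : β ((x1 i0)⁻¹ • x1) = α ((x1 i0)⁻¹ • x1) + δ := by
      rw [hα.smul _ _ hinv hx1, hβ.smul _ _ hinv hx1]
      omega
    generalize (x1 i0)⁻¹ • x1 = x at hx hαx hβx
    have hPα : ∀ v, v ≠ 0 → ∀ k, k ≤ α v → v i0 ≠ 0 → k ≤ M * o (v i0) + α x := by
      intro v hv k hk hv0
      rw [hαx]
      exact (hg v hv k).1 hk i0 hv0
    have hPβ : ∀ v, v ≠ 0 → ∀ k, k ≤ β v → v i0 ≠ 0 → k ≤ M * o (v i0) + β x := by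
      intro v hv k hk hv0
      have h1 := hmax' v hv
      have h2 := hPα v hv (k - δ) (by omega) hv0
      omega
    obtain ⟨g1, hg1α, hg1β⟩ := ih (fun y => α (ins i0 y)) (fun y => β (ins i0 y))
      (isNorm_ins hα i0) (isNorm_ins hβ i0) (splits_ins i0 hg)
      ⟨δ0, fun y hy => hδ0 _ (ins_ne i0 hy)⟩
    exact ⟨newFrame i0 x hx g1, extend h hα hx hPα hg1α, extend h hβ hx hPβ hg1β⟩

end SplitTwo

theorem T1_split_two {K : Type*} [Field K] {o : K → ℤ} {π : K} (h : IsDV o π) {n : ℕ} {M : ℤ}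
    {α β : (Fin n → K) → ℤ} (hα : IsNorm o M α) (hβ : IsNorm o M β)
    {g : Frame K n} (hg : Splits o M α g) (hbd : ∃ δ : ℤ, ∀ x, x ≠ 0 → β x ≤ α x + δ) :
    ∃ g' : Frame K n, Splits o M α g' ∧ Splits o M β g' := by
  have hne : ∀ x : Fin n → K, x ≠ 0 → g x ≠ 0 := fun x hx h0 =>
    hx ((LinearEquiv.map_eq_zero_iff g).1 h0)
  have hnorm : ∀ γ : (Fin n → K) → ℤ, IsNorm o M γ → IsNorm o M (fun x => γ (g x)) := by
    intro γ hγ
    refine ⟨fun c x hc hx => ?_, fun x y hx hy hxy => ?_⟩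
    · change γ (g (c • x)) = M * o c + γ (g x)
      rw [map_smul]
      exact hγ.smul c _ hc (hne x hx)
    · change min (γ (g x)) (γ (g y)) ≤ γ (g (x + y))
      rw [map_add]
      refine hγ.add _ _ (hne x hx) (hne y hy) ?_
      rw [← map_add]
      exact hne _ hxy
  have hback : ∀ γ : (Fin n → K) → ℤ, ∀ g1 : Frame K n, Splits o M (fun x => γ (g x)) g1 →
      Splits o M γ (g * g1) := by
    intro γ g1 H x hx k
    have hx' : g.symm x ≠ 0 := fun h0 => hx (by
      have := congrArg g h0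
      rwa [LinearEquiv.apply_symm_apply, map_zero] at this)
    have h1 := H (g.symm x) hx' k
    have h2 : γ (g (g.symm x)) = γ x := by rw [LinearEquiv.apply_symm_apply]
    change k ≤ γ (g (g.symm x)) ↔ _ at h1
    rw [h2] at h1
    exact h1
  have hs : Splits o M (fun x => α (g x)) (1 : Frame K n) := by
    intro x hx k
    have h1 := hg (g x) (hne x hx) k
    rw [LinearEquiv.symm_apply_apply] at h1
    exact h1
  obtain ⟨δ, hδ⟩ := hbd
  obtain ⟨g1, h1, h2⟩ := SplitTwo.main h n (fun x => α (g x)) (fun x => β (g x)) (hnorm α hα)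
    (hnorm β hβ) hs ⟨δ, fun x hx => hδ _ (hne x hx)⟩
  exact ⟨g * g1, hback α g1 h1, hback β g1 h2⟩

end MP26e62b
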