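import Pool.Agent.Lib.MP_26e62b_al.Racg
import Pool.Agent.Lib.MP_26e62b_al.Defs

/-!
# T6: the surface group embeds in a right-angled Coxeter group
-/

namespace MP26e62b

namespace T6

theorem prod_tel {H : Type*} [Group H] : ∀ (g : ℕ) (f : Fin g → H) (Q : ℕ → H),
    (∀ i : Fin g, f i = (Q i)⁻¹ * Q ((i : ℕ) + 1)) → (List.ofFn f).prod = (Q 0)⁻¹ * Q g := by
  intro g
  induction g with
  | zero => intro f Q _; simp
  | succ g ih =>
    intro f Q h
    rw [List.ofFn_succ, List.prod_cons, ih (fun i => f i.succ) (fun n => Q (n + 1)), h 0]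
    · simp [mul_assoc]
    · intro i
      have := h i.succ
      simpa using this

/-- the surface group -/
abbrev SG (g : ℕ) : Type := PresentedGroup {surfaceRelator g}

theorem hom_rel {H : Type*} [Group H] {g : ℕ} (f : FreeGroup (Fin g × Bool) →* H) :
    f (surfaceRelator g) =
      (List.ofFn fun i : Fin g => f (FreeGroup.of (i, false)) * f (FreeGroup.of (i, true)) *
        (f (FreeGroup.of (i, false)))⁻¹ * (f (FreeGroup.of (i, true)))⁻¹).prod := by
  rw [surfaceRelator, map_list_prod, List.map_ofFn]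
  congr 2
  funext i
  simp

theorem lift_rel {H : Type*} [Group H] {g : ℕ} (f : Fin g × Bool → H) :
    FreeGroup.lift f (surfaceRelator g) =
      (List.ofFn fun i : Fin g => f (i, false) * f (i, true) * (f (i, false))⁻¹ *
        (f (i, true))⁻¹).prod := by
  rw [surfaceRelator, map_list_prod, List.map_ofFn]
  congr 2
  funext i
  simp

/-- homomorphisms out of the surface group -/
def liftG {H : Type*} [Group H] {g : ℕ} (α β : ℕ → H)
    (h : (List.ofFn fun i : Fin g => α i * β i * (α i)⁻¹ * (β i)⁻¹).prod = 1) : SG g →* H :=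
  PresentedGroup.toGroup (f := fun x : Fin g × Bool => if x.2 then β x.1 else α x.1) (by
    intro r hr
    rw [Set.mem_singleton_iff] at hr
    subst hr
    rw [lift_rel]
    simpa using h)

/-- the generators -/
def ga {g : ℕ} (n : ℕ) : SG g :=
  if h : n < g then PresentedGroup.of (⟨n, h⟩, false) else 1

/-- the generators -/
def gb {g : ℕ} (n : ℕ) : SG g :=
  if h : n < g then PresentedGroup.of (⟨n, h⟩, true) else 1

theorem liftG_ga {H : Type*} [Group H] {g : ℕ} {α β : ℕ → H}
    {h : (List.ofFn fun i : Fin g => α i * β i * (α i)⁻¹ * (β i)⁻¹).prod = 1} {n : ℕ}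
    (hn : n < g) : liftG α β h (ga n) = α n := by
  rw [ga, dif_pos hn, liftG, PresentedGroup.toGroup.of]
  simp

theorem liftG_gb {H : Type*} [Group H] {g : ℕ} {α β : ℕ → H}
    {h : (List.ofFn fun i : Fin g => α i * β i * (α i)⁻¹ * (β i)⁻¹).prod = 1} {n : ℕ}
    (hn : n < g) : liftG α β h (gb n) = β n := by
  rw [gb, dif_pos hn, liftG, PresentedGroup.toGroup.of]
  simp

theorem hom_ext {H : Type*} [Group H] {g : ℕ} {φ ψ : SG g →* H}
    (ha : ∀ n, n < g → φ (ga n) = ψ (ga n)) (hb : ∀ n, n < g → φ (gb n) = ψ (gb n)) :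
    φ = ψ := by
  apply PresentedGroup.ext
  rintro ⟨i, b⟩
  cases b with
  | false =>
    have := ha i i.2
    rw [ga, dif_pos i.2] at this
    exact this
  | true =>
    have := hb i i.2
    rw [gb, dif_pos i.2] at this
    exact this

variable {g : ℕ}

/-- `A_n = a_1 ... a_n` -/
def AA : ℕ → SG g
  | 0 => 1
  | n + 1 => AA n * ga n

/-- `P_n = [a_1,b_1] ... [a_n,b_n]` -/
def PP : ℕ → SG g
  | 0 => 1
  | n + 1 => PP n * (ga n * gb n * (ga n)⁻¹ * (gb n)⁻¹)

theorem AA_zero : (AA 0 : SG g) = 1 := rfl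
theorem PP_zero : (PP 0 : SG g) = 1 := rfl
theorem AA_succ (n : ℕ) : (AA (n + 1) : SG g) = AA n * ga n := rfl
theorem PP_succ (n : ℕ) :
    (PP (n + 1) : SG g) = PP n * (ga n * gb n * (ga n)⁻¹ * (gb n)⁻¹) := rfl

theorem PP_self : (PP g : SG g) = 1 := by
  have h1 := prod_tel g (fun i : Fin g => (ga (i : ℕ) : SG g) * gb i * (ga i)⁻¹ * (gb i)⁻¹) PP
    (by
      intro i
      rw [PP_succ]
      group)
  rw [PP_zero, inv_one, one_mul] at h1
  rw [← h1]
  have h2 : PresentedGroup.mk {surfaceRelator g} (surfaceRelator g) = 1 :=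
    PresentedGroup.one_of_mem (Set.mem_singleton _)
  rw [hom_rel] at h2
  refine Eq.trans ?_ h2
  congr 2
  funext i
  simp only [ga, gb, dif_pos i.2]
  rfl

/-- the first involution -/
def eps : SG g →* SG g :=
  liftG (fun n => PP n * ga n * (PP (n + 1))⁻¹) (fun n => PP (n + 1) * (gb n)⁻¹ * (PP (n + 1))⁻¹)
    (by
      rw [prod_tel g _ (fun n => (PP n : SG g)⁻¹), PP_self, PP_zero]
      · simp
      · intro i
        rw [PP_succ]
        group)

/-- the second involution -/
def tau : SG g →* SG g :=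
  liftG (fun n => AA n * (AA (n + 1))⁻¹) (fun n => AA (n + 1) * PP (n + 1) * gb n * (AA (n + 1))⁻¹)
    (by
      rw [prod_tel g _ (fun n => (AA n : SG g) * (PP n)⁻¹ * (AA n)⁻¹), PP_self, PP_zero, AA_zero]
      · simp
      · intro i
        rw [PP_succ, AA_succ]
        group)

theorem eps_ga {n : ℕ} (hn : n < g) : eps (ga n : SG g) = PP n * ga n * (PP (n + 1))⁻¹ :=
  liftG_ga hn

theorem eps_gb {n : ℕ} (hn : n < g) :
    eps (gb n : SG g) = PP (n + 1) * (gb n)⁻¹ * (PP (n + 1))⁻¹ :=
  liftG_gb hn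

theorem tau_ga {n : ℕ} (hn : n < g) : tau (ga n : SG g) = AA n * (AA (n + 1))⁻¹ :=
  liftG_ga hn

theorem tau_gb {n : ℕ} (hn : n < g) :
    tau (gb n : SG g) = AA (n + 1) * PP (n + 1) * gb n * (AA (n + 1))⁻¹ :=
  liftG_gb hn

theorem eps_PP {n : ℕ} (hn : n ≤ g) : eps (PP n : SG g) = (PP n)⁻¹ := by
  induction n with
  | zero => simp [PP_zero]
  | succ n ih =>
    have hn' : n < g := hn
    rw [PP_succ]
    simp only [map_mul, map_inv, ih hn'.le, eps_ga hn', eps_gb hn']
    rw [PP_succ]
    group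

theorem eps_AA {n : ℕ} (hn : n ≤ g) : eps (AA n : SG g) = AA n * (PP n)⁻¹ := by
  induction n with
  | zero => simp [AA_zero, PP_zero]
  | succ n ih =>
    have hn' : n < g := hn
    rw [AA_succ, map_mul, ih hn'.le, eps_ga hn']
    group

theorem tau_AA {n : ℕ} (hn : n ≤ g) : tau (AA n : SG g) = (AA n)⁻¹ := by
  induction n with
  | zero => simp [AA_zero]
  | succ n ih =>
    have hn' : n < g := hn
    rw [AA_succ, map_mul, ih hn'.le, tau_ga hn', AA_succ]
    group

theorem tau_PP {n : ℕ} (hn : n ≤ g) : tau (PP n : SG g) = AA n * (PP n)⁻¹ * (AA n)⁻¹ := by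
  induction n with
  | zero => simp [AA_zero, PP_zero]
  | succ n ih =>
    have hn' : n < g := hn
    rw [PP_succ]
    simp only [map_mul, map_inv, ih hn'.le, tau_ga hn', tau_gb hn']
    rw [PP_succ, AA_succ]
    group

theorem eps_eps (x : SG g) : eps (eps x) = x := by
  have : (eps.comp eps : SG g →* SG g) = MonoidHom.id _ := by
    apply hom_ext
    · intro n hn
      rw [MonoidHom.comp_apply, MonoidHom.id_apply, eps_ga hn, map_mul, map_mul, map_inv,
        eps_PP hn.le, eps_PP (Nat.succ_le_of_lt hn), eps_ga hn]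
      group
    · intro n hn
      rw [MonoidHom.comp_apply, MonoidHom.id_apply, eps_gb hn, map_mul, map_mul, map_inv, map_inv,
        eps_PP (Nat.succ_le_of_lt hn), eps_gb hn]
      group
  exact DFunLike.congr_fun this x

theorem tau_tau (x : SG g) : tau (tau x) = x := by
  have : (tau.comp tau : SG g →* SG g) = MonoidHom.id _ := by
    apply hom_ext
    · intro n hn
      rw [MonoidHom.comp_apply, MonoidHom.id_apply, tau_ga hn, map_mul, map_inv,
        tau_AA hn.le, tau_AA (Nat.succ_le_of_lt hn), AA_succ]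
      group
    · intro n hn
      rw [MonoidHom.comp_apply, MonoidHom.id_apply, tau_gb hn, map_mul, map_mul, map_mul, map_inv,
        tau_AA (Nat.succ_le_of_lt hn), tau_PP (Nat.succ_le_of_lt hn), tau_gb hn]
      group
  exact DFunLike.congr_fun this x

theorem eps_tau (x : SG g) : eps (tau x) = tau (eps x) := by
  have : (eps.comp tau : SG g →* SG g) = tau.comp eps := by
    apply hom_ext
    · intro n hn
      rw [MonoidHom.comp_apply, MonoidHom.comp_apply, tau_ga hn, eps_ga hn]
      simp only [map_mul, map_inv, eps_AA hn.le, eps_AA (Nat.succ_le_of_lt hn), tau_PP hn.le,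
        tau_PP (Nat.succ_le_of_lt hn), tau_ga hn]
      group
    · intro n hn
      rw [MonoidHom.comp_apply, MonoidHom.comp_apply, tau_gb hn, eps_gb hn]
      simp only [map_mul, map_inv, eps_AA (Nat.succ_le_of_lt hn), eps_PP (Nat.succ_le_of_lt hn),
        tau_PP (Nat.succ_le_of_lt hn), tau_gb hn, eps_gb hn]
      group
  exact DFunLike.congr_fun this x

/-- the elements `X_n` -/
def XX : ℕ → SG g
  | 0 => 1
  | n + 1 => (gb n)⁻¹ * (PP (n + 1))⁻¹

theorem XX_zero : (XX 0 : SG g) = 1 := rfl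
theorem XX_succ (n : ℕ) : (XX (n + 1) : SG g) = (gb n)⁻¹ * (PP (n + 1))⁻¹ := rfl

theorem eps_XX {n : ℕ} (hn : n ≤ g) : eps (XX n : SG g) = (XX n)⁻¹ := by
  cases n with
  | zero => simp [XX_zero]
  | succ n =>
    have hn' : n < g := hn
    rw [XX_succ, map_mul, map_inv, map_inv, eps_gb hn', eps_PP hn]
    group

theorem tau_XX {n : ℕ} (hn : n + 1 ≤ g) :
    tau (XX (n + 1) : SG g) = AA (n + 1) * (gb n)⁻¹ * (AA (n + 1))⁻¹ := by
  have hn' : n < g := hn
  rw [XX_succ, map_mul, map_inv, map_inv, tau_gb hn', tau_PP hn]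
  group

/-- the action of `e_n` -/
def pe (n : ℕ) (x : SG g) : SG g := XX n * eps x

/-- the action of `t_n` -/
def pt (n : ℕ) (x : SG g) : SG g := (AA n)⁻¹ * tau x

theorem pe_pe {n : ℕ} (hn : n ≤ g) (x : SG g) : pe n (pe n x) = x := by
  rw [pe, pe, map_mul, eps_XX hn, eps_eps]
  group

theorem pt_pt {n : ℕ} (hn : n ≤ g) (x : SG g) : pt n (pt n x) = x := by
  rw [pt, pt, map_mul, map_inv, tau_AA hn, tau_tau]
  group

theorem pe_pt_of {j k : ℕ} (hk : k ≤ g)
    (h : (XX j : SG g) * PP k * (AA k)⁻¹ = (AA k)⁻¹ * tau (XX j)) (x : SG g) :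
    pe j (pt k x) = pt k (pe j x) := by
  rw [pe, pt, pe, pt, map_mul, map_mul, map_inv, eps_AA hk, eps_tau, mul_inv_rev, inv_inv,
    ← mul_assoc, ← mul_assoc, ← mul_assoc, h]

theorem pe_pt_self {j : ℕ} (hj : j ≤ g) (x : SG g) : pe j (pt j x) = pt j (pe j x) := by
  apply pe_pt_of hj
  cases j with
  | zero => simp [XX_zero, PP_zero, AA_zero]
  | succ j =>
    rw [tau_XX hj, XX_succ]
    group

theorem pe_pt_succ {j : ℕ} (hj : j + 1 ≤ g) (x : SG g) :
    pe (j + 1) (pt j x) = pt j (pe (j + 1) x) := by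
  apply pe_pt_of (Nat.le_of_succ_le hj)
  rw [tau_XX hj, XX_succ, PP_succ, AA_succ]
  group

theorem pe_pt_last (x : SG g) : pe 0 (pt g x) = pt g (pe 0 x) := by
  apply pe_pt_of le_rfl
  rw [XX_zero, PP_self, map_one]
  group

/-- the action as permutations -/
def perm (v : Fin (g + 1) × Bool) : Equiv.Perm (SG g) :=
  if v.2 then Function.Involutive.toPerm (pt (v.1 : ℕ)) (pt_pt (Nat.lt_succ_iff.mp v.1.2))
  else Function.Involutive.toPerm (pe (v.1 : ℕ)) (pe_pe (Nat.lt_succ_iff.mp v.1.2))

theorem perm_true (j : Fin (g + 1)) (x : SG g) : perm (j, true) x = pt j x := rfl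

theorem perm_false (j : Fin (g + 1)) (x : SG g) : perm (j, false) x = pe j x := rfl

theorem perm_sq (v : Fin (g + 1) × Bool) (x : SG g) : perm v (perm v x) = x := by
  obtain ⟨j, b⟩ := v
  cases b with
  | false => rw [perm_false, perm_false, pe_pe (Nat.lt_succ_iff.mp j.2)]
  | true => rw [perm_true, perm_true, pt_pt (Nat.lt_succ_iff.mp j.2)]

theorem perm_comm_aux {v w : Fin (g + 1) × Bool}
    (h : v.2 = false ∧ w.2 = true ∧
      (v.1 = w.1 ∨ (v.1 : ℕ) = (w.1 : ℕ) + 1 ∨ ((v.1 : ℕ) = 0 ∧ (w.1 : ℕ) = g))) (x : SG g) :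
    perm v (perm w x) = perm w (perm v x) := by
  obtain ⟨j, b⟩ := v
  obtain ⟨k, c⟩ := w
  obtain ⟨h1, h2, h3⟩ := h
  simp only at h1 h2 h3
  subst h1 h2
  simp only [perm_false, perm_true]
  have hj := Nat.lt_succ_iff.mp j.2
  rcases h3 with h3 | h3 | ⟨h3, h4⟩
  · subst h3
    exact pe_pt_self hj x
  · rw [h3]
    rw [h3] at hj
    exact pe_pt_succ hj x
  · rw [h3, h4]
    exact pe_pt_last x

theorem perm_comm {v w : Fin (g + 1) × Bool} (h : (cyc g).Adj v w) (x : SG g) :
    perm v (perm w x) = perm w (perm v x) := by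
  rw [cyc, SimpleGraph.fromRel_adj] at h
  rcases h.2 with h | h
  · exact perm_comm_aux h x
  · exact (perm_comm_aux h x).symm

/-- the action of the right-angled Coxeter group on the set of elements of the surface group -/
def act : RACG (cyc g) →* Equiv.Perm (SG g) :=
  PresentedGroup.toGroup (f := perm) (by
    rintro r (⟨i, rfl⟩ | ⟨i, j, hij, rfl⟩)
    · rw [map_mul, FreeGroup.lift_apply_of]
      ext x
      exact perm_sq i x
    · simp only [map_mul, FreeGroup.lift_apply_of]
      ext x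
      simp only [Equiv.Perm.mul_apply, Equiv.Perm.one_apply]
      rw [perm_comm hij (perm i (perm j x)), perm_sq, perm_sq])

/-- the generators `e_n` -/
def re (n : ℕ) : RACG (cyc g) :=
  if h : n < g + 1 then PresentedGroup.of (⟨n, h⟩, false) else 1

/-- the generators `t_n` -/
def rt (n : ℕ) : RACG (cyc g) :=
  if h : n < g + 1 then PresentedGroup.of (⟨n, h⟩, true) else 1

theorem act_re {n : ℕ} (hn : n ≤ g) (x : SG g) : act (re n) x = pe n x := by
  rw [re, dif_pos (Nat.lt_succ_of_le hn), act, PresentedGroup.toGroup.of]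
  exact perm_false _ x

theorem act_rt {n : ℕ} (hn : n ≤ g) (x : SG g) : act (rt n) x = pt n x := by
  rw [rt, dif_pos (Nat.lt_succ_of_le hn), act, PresentedGroup.toGroup.of]
  exact perm_true _ x

theorem of_sq (v : Fin (g + 1) × Bool) :
    (PresentedGroup.of v : RACG (cyc g)) * PresentedGroup.of v = 1 := by
  have : PresentedGroup.mk (racgRels (cyc g)) (FreeGroup.of v * FreeGroup.of v) = 1 :=
    PresentedGroup.one_of_mem (Or.inl ⟨v, rfl⟩)
  rw [map_mul] at this
  exact this

theorem of_comm {v w : Fin (g + 1) × Bool} (h : (cyc g).Adj v w) :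
    (PresentedGroup.of v : RACG (cyc g)) * PresentedGroup.of w =
      PresentedGroup.of w * PresentedGroup.of v := by
  have : PresentedGroup.mk (racgRels (cyc g))
      (FreeGroup.of v * FreeGroup.of w * FreeGroup.of v * FreeGroup.of w) = 1 :=
    PresentedGroup.one_of_mem (Or.inr ⟨v, w, h, rfl⟩)
  simp only [map_mul] at this
  have h2 : (PresentedGroup.of v : RACG (cyc g)) * PresentedGroup.of w * PresentedGroup.of v *
      PresentedGroup.of w = 1 := this
  have hv := of_sq (g := g) v
  have hw := of_sq (g := g) w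
  have hv' : (PresentedGroup.of v : RACG (cyc g))⁻¹ = PresentedGroup.of v :=
    inv_eq_of_mul_eq_one_right hv
  have hw' : (PresentedGroup.of w : RACG (cyc g))⁻¹ = PresentedGroup.of w :=
    inv_eq_of_mul_eq_one_right hw
  have h3 : (PresentedGroup.of v : RACG (cyc g)) * PresentedGroup.of w =
      (PresentedGroup.of v * PresentedGroup.of w)⁻¹ := by
    apply eq_inv_of_mul_eq_one_left
    rw [← mul_assoc]; exact h2
  rw [h3, mul_inv_rev, hv', hw']

theorem re_sq (n : ℕ) : (re n : RACG (cyc g)) * re n = 1 := by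
  rw [re]
  split_ifs with h
  · exact of_sq _
  · simp

theorem rt_sq (n : ℕ) : (rt n : RACG (cyc g)) * rt n = 1 := by
  rw [rt]
  split_ifs with h
  · exact of_sq _
  · simp

theorem re_inv (n : ℕ) : (re n : RACG (cyc g))⁻¹ = re n :=
  inv_eq_of_mul_eq_one_right (re_sq n)

theorem rt_inv (n : ℕ) : (rt n : RACG (cyc g))⁻¹ = rt n :=
  inv_eq_of_mul_eq_one_right (rt_sq n)

theorem comm_of {j k : ℕ} (hj : j ≤ g) (hk : k ≤ g) (h : j = k ∨ j = k + 1 ∨ (j = 0 ∧ k = g)) :
    (re j : RACG (cyc g)) * rt k = rt k * re j := by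
  rw [re, rt, dif_pos (Nat.lt_succ_of_le hj), dif_pos (Nat.lt_succ_of_le hk)]
  apply of_comm
  rw [cyc, SimpleGraph.fromRel_adj]
  refine ⟨by simp, Or.inl ⟨rfl, rfl, ?_⟩⟩
  rcases h with h | h | h
  · exact Or.inl (Fin.ext h)
  · exact Or.inr (Or.inl h)
  · exact Or.inr (Or.inr h)

/-- the embedding -/
def emb : SG g →* RACG (cyc g) :=
  liftG (fun n => rt n * rt (n + 1)) (fun n => rt (n + 1) * re 0 * re (n + 1) * rt (n + 1))
    (by
      rw [prod_tel g _ (fun n => (rt n : RACG (cyc g)) * re 0 * rt n)]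
      · have e1 : (re 0 : RACG (cyc g)) * rt 0 = rt 0 * re 0 :=
          comm_of (Nat.zero_le _) (Nat.zero_le _) (Or.inl rfl)
        have e2 : (re 0 : RACG (cyc g)) * rt g = rt g * re 0 :=
          comm_of (Nat.zero_le _) le_rfl (Or.inr (Or.inr ⟨rfl, rfl⟩))
        have e3 : (rt 0 : RACG (cyc g)) * re 0 * rt 0 = re 0 := by
          rw [mul_assoc, e1, ← mul_assoc, rt_sq, one_mul]
        have e4 : (rt g : RACG (cyc g)) * re 0 * rt g = re 0 := by
          rw [mul_assoc, e2, ← mul_assoc, rt_sq, one_mul]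
        rw [e3, e4, inv_mul_cancel]
      · intro i
        have hi := i.2
        have e1 : (re (i + 1) : RACG (cyc g)) * rt i = rt i * re (i + 1) :=
          comm_of (by omega) (by omega) (Or.inr (Or.inl rfl))
        have e2 : (re (i + 1) : RACG (cyc g)) * rt (i + 1) = rt (i + 1) * re (i + 1) :=
          comm_of (by omega) (by omega) (Or.inl rfl)
        simp only [mul_inv_rev, re_inv, rt_inv]
        have t1 := rt_sq (g := g) i
        have t2 := rt_sq (g := g) (i + 1)
        have t3 := re_sq (g := g) (i + 1)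
        generalize (re (↑i + 1) : RACG (cyc g)) = e at *
        generalize (rt (↑i + 1) : RACG (cyc g)) = t' at *
        generalize (rt ↑i : RACG (cyc g)) = t at *
        generalize (re 0 : RACG (cyc g)) = f at *
        -- t t' (t' f e t') (t' t) (t' e f t') = t f t t' f t'
        calc t * t' * (t' * f * e * t') * (t' * t) * (t' * (e * (f * t')))
            = t * (t' * t') * f * e * (t' * t') * t * t' * e * f * t' := by
              simp only [mul_assoc]
          _ = t * f * (e * t) * t' * e * f * t' := by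
              rw [t2, mul_one, mul_one]; simp only [mul_assoc]
          _ = t * f * t * (e * t') * e * f * t' := by rw [e1]; simp only [mul_assoc]
          _ = t * f * t * t' * (e * e) * f * t' := by rw [e2]; simp only [mul_assoc]
          _ = t * (f * t) * (t' * f * t') := by rw [t3, mul_one]; simp only [mul_assoc])

theorem act_emb (x y : SG g) : act (emb x) y = x * y := by
  have : (act.comp emb : SG g →* Equiv.Perm (SG g)) = MulAction.toPermHom (SG g) (SG g) := by
    apply hom_ext
    · intro n hn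
      ext y
      rw [MonoidHom.comp_apply, emb, liftG_ga hn, map_mul, Equiv.Perm.mul_apply,
        act_rt (Nat.succ_le_of_lt hn), act_rt hn.le, MulAction.toPermHom_apply,
        MulAction.toPerm_apply, smul_eq_mul, pt, pt, map_mul, map_inv,
        tau_AA (Nat.succ_le_of_lt hn), tau_tau, AA_succ]
      group
    · intro n hn
      ext y
      rw [MonoidHom.comp_apply, emb, liftG_gb hn, map_mul, map_mul, map_mul, Equiv.Perm.mul_apply,
        Equiv.Perm.mul_apply, Equiv.Perm.mul_apply,
        act_rt (Nat.succ_le_of_lt hn), act_re (Nat.succ_le_of_lt hn), act_re (Nat.zero_le _),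
        act_rt (Nat.succ_le_of_lt hn), MulAction.toPermHom_apply,
        MulAction.toPerm_apply, smul_eq_mul, pt, pe, pe, pt, XX_zero]
      simp only [map_mul, map_inv, one_mul, eps_AA (Nat.succ_le_of_lt hn),
        eps_XX (Nat.succ_le_of_lt hn), eps_PP (Nat.succ_le_of_lt hn), eps_tau, eps_eps, tau_tau,
        tau_AA (Nat.succ_le_of_lt hn), tau_PP (Nat.succ_le_of_lt hn),
        tau_XX (Nat.succ_le_of_lt hn)]
      group
  have h := DFunLike.congr_fun (DFunLike.congr_fun this x) y
  exact h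

end T6

theorem T6_surface (g : ℕ) :
    ∃ φ : PresentedGroup {surfaceRelator g} →* RACG (cyc g), Function.Injective φ := by
  refine ⟨T6.emb, fun x y h => ?_⟩
  have h1 := T6.act_emb x 1
  have h2 := T6.act_emb y 1
  rw [h] at h1
  rw [mul_one] at h1 h2
  exact h1.symm.trans h2

end MP26e62b
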